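import Pool.Agent.Work.MP_adbfe6_an.SK.Defs

/-!
# Fibrewise Pesin structures of skew products
-/

set_option autoImplicit false

open Filter Topology MeasureTheory
open scoped ENNReal NNReal

namespace Pool.Agent.SKP

/-- **Fibrewise Pesin structure** of the skew product `f = skew A.M g` on a measurable invariant set
`Ω`: for `p ∈ Ω` there are connected subsets `Wu p` and `Ws p` of the fibre through `p`, equivariant
under `f`, containing the fibre coordinate of `p`, whose points are backward asymptotic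
(forward asymptotic) to `p`, such that

* `block`: outside of a subset of `Ω` of small measure, `Wu p` and `Ws q` meet if `p` and `q` lie in
  the same fibre and are close to each other;
* `ac` (absolute continuity): if `P` is saturated by the sets `Wu`, `Q` is saturated by the sets
  `Ws`, and `P ∩ Q` is a null set, then almost no `Wu p`, `p ∈ P`, meets a `Ws q`, `q ∈ Q`;
* `rect` (rectangles, dimension two of the fibre): in the fibre over `x`, for many quadruples of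
  points of `S ⊆ Ω`, two of the sets `Wu` and two of the sets `Ws` contain the boundary of a closed
  set of small measure with nonempty interior.

For a closed surface `N` with an area `ν` and fibre maps which are uniformly of class `C^{1+α}`, the
set `Ω` of the points with nonzero exponents in the fibre direction, and its unstable and stable
curves in the fibres, have these properties by Pesin theory. -/
structure PesinFibres {d : ℕ} {N : Type} [MetricSpace N] [MeasurableSpace N] (A : HypAut d)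
    (g : Tor d → N ≃ₜ N) (ν : Measure N) (Ω : Set (Tor d × N)) (Wu Ws : Tor d × N → Set N) :
    Prop where
  meas : MeasurableSet Ω
  inv : ∀ p, skew A.M g p ∈ Ω ↔ p ∈ Ω
  conn_u : ∀ p ∈ Ω, IsPreconnected (Wu p)
  conn_s : ∀ p ∈ Ω, IsPreconnected (Ws p)
  mem_u : ∀ p ∈ Ω, p.2 ∈ Wu p
  mem_s : ∀ p ∈ Ω, p.2 ∈ Ws p
  map_u : ∀ p ∈ Ω, g p.1 '' Wu p = Wu (skew A.M g p)
  map_s : ∀ p ∈ Ω, g p.1 '' Ws p = Ws (skew A.M g p)
  asym_u : ∀ p ∈ Ω, ∀ z ∈ Wu p, Tendsto (fun n : ℕ =>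
    dist ((skewInv A.Mi g)^[n] p) ((skewInv A.Mi g)^[n] (p.1, z))) atTop (𝓝 0)
  asym_s : ∀ p ∈ Ω, ∀ z ∈ Ws p, Tendsto (fun n : ℕ =>
    dist ((skew A.M g)^[n] p) ((skew A.M g)^[n] (p.1, z))) atTop (𝓝 0)
  block : ∀ ε : ℝ≥0∞, 0 < ε → ∃ Λ ⊆ Ω, MeasurableSet Λ ∧ (volume.prod ν) (Ω \ Λ) < ε ∧
    ∃ r : ℝ, 0 < r ∧ ∀ x y y', (x, y) ∈ Λ → (x, y') ∈ Λ → dist y y' < r →
      (Wu (x, y) ∩ Ws (x, y')).Nonempty
  ac : ∀ P Q : Set (Tor d × N), MeasurableSet P → MeasurableSet Q →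
    (∀ p ∈ P ∩ Ω, ∀ z ∈ Wu p, (p.1, z) ∈ P) → (∀ q ∈ Q ∩ Ω, ∀ z ∈ Ws q, (q.1, z) ∈ Q) →
    (volume.prod ν) (P ∩ Q) = 0 →
    ∀ᵐ x, ∀ᵐ q ∂(ν.prod ν), (x, q.1) ∈ P ∩ Ω → (x, q.2) ∈ Q ∩ Ω →
      Disjoint (Wu (x, q.1)) (Ws (x, q.2))
  rect : ∀ S ⊆ Ω, MeasurableSet S → ∀ᵐ x, 0 < ν (Prod.mk x ⁻¹' S) → ∀ ρ : ℝ≥0∞, 0 < ρ →
    ∃ᶠ y in ae (Measure.pi (fun _ : Fin 4 => ν)), (∀ i, (x, y i) ∈ S) ∧
      ∃ R : Set N, IsClosed R ∧ (interior R).Nonempty ∧ ν R < ρ ∧
        frontier R ⊆ Wu (x, y 0) ∪ Wu (x, y 1) ∪ Ws (x, y 2) ∪ Ws (x, y 3)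

end Pool.Agent.SKP
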