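import Pool.Agent.Work.MP_adbfe6_an.SF.Stmts

/-!
# Surface fibres, item Avg (von Neumann)
-/

set_option autoImplicit false

open Filter Topology MeasureTheory
open scoped ENNReal NNReal

namespace Pool.Agent.SKP

namespace SF

namespace IAvg

variable {M : Type} [MeasurableSpace M] {μ : Measure M} {f : M → M}

theorem iter (hf : MeasurePreserving f μ μ) {h : M → ℝ} (hh : MemLp h 2 μ) (n : ℕ) :
    (((Lp.compMeasurePreservingₗᵢ (E := ℝ) (p := 2) ℝ f hf).toContinuousLinearMap)^[n]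
      (hh.toLp h) : Lp ℝ 2 μ) =ᵐ[μ] fun p => h (f^[n] p) := by
  have e1 : (⇑((Lp.compMeasurePreservingₗᵢ (E := ℝ) (p := 2) ℝ f hf).toContinuousLinearMap))^[n] =
      Lp.compMeasurePreserving f^[n] (MeasurePreserving.iterate hf n) :=
    Lp.compMeasurePreserving_iterate hf n
  rw [e1]
  refine (Lp.coeFn_compMeasurePreserving _ _).trans ?_
  exact (hf.iterate n).quasiMeasurePreserving.ae_eq_comp hh.coeFn_toLp

theorem sum (hf : MeasurePreserving f μ μ) {h : M → ℝ} (hh : MemLp h 2 μ) (n : ℕ) :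
    (birkhoffSum ⇑((Lp.compMeasurePreservingₗᵢ (E := ℝ) (p := 2) ℝ f hf).toContinuousLinearMap)
      _root_.id n (hh.toLp h) : Lp ℝ 2 μ) =ᵐ[μ] fun p => birkhoffSum f h n p := by
  induction n with
  | zero =>
    simp only [birkhoffSum_zero]
    exact Lp.coeFn_zero _ _ _
  | succ n ih =>
    simp only [birkhoffSum_succ]
    refine (Lp.coeFn_add _ _).trans ?_
    filter_upwards [ih, iter hf hh n] with p h1 h2
    simp only [Pi.add_apply, id_eq]
    rw [h1, h2]

theorem avg (hf : MeasurePreserving f μ μ) {h : M → ℝ} (hh : MemLp h 2 μ) (n : ℕ) :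
    (birkhoffAverage ℝ ⇑((Lp.compMeasurePreservingₗᵢ (E := ℝ) (p := 2) ℝ f
      hf).toContinuousLinearMap) _root_.id n (hh.toLp h) : Lp ℝ 2 μ) =ᵐ[μ]
        fun p => birkhoffAverage ℝ f h n p := by
  unfold birkhoffAverage
  refine (Lp.coeFn_smul _ _).trans ?_
  filter_upwards [sum hf hh n] with p h1
  simp only [Pi.smul_apply]
  rw [h1]

end IAvg

open IAvg in
theorem i_Avg : Avg := by
  intro M _ _ _ _ μ _ f hf S hS hSf h
  have hh : MemLp (⇑h) 2 μ := MemLp.of_bound h.continuous.aestronglyMeasurable ‖h‖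
    (Eventually.of_forall fun x => h.norm_coe_le_norm x)
  have hw : MemLp (S.indicator (fun _ => (1 : ℝ))) 2 μ :=
    memLp_indicator_const 2 hS 1 (Or.inr (measure_ne_top μ S))
  obtain ⟨T, hT⟩ : ∃ T : Lp ℝ 2 μ →L[ℝ] Lp ℝ 2 μ,
      T = (Lp.compMeasurePreservingₗᵢ (E := ℝ) (p := 2) ℝ f hf).toContinuousLinearMap := ⟨_, rfl⟩
  have hT1 : ‖T‖ ≤ 1 := by
    rw [hT]
    exact LinearIsometry.norm_toContinuousLinearMap_le _
  have hconv := T.tendsto_birkhoffAverage_orthogonalProjection hT1 (hh.toLp h)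
  have hTw : T (hw.toLp _) = hw.toLp _ := by
    rw [hT]
    change Lp.compMeasurePreserving f hf (hw.toLp _) = hw.toLp _
    rw [Lp.toLp_compMeasurePreserving, MemLp.toLp_eq_toLp_iff]
    filter_upwards [hSf] with p hp
    have hp' : f p ∈ S ↔ p ∈ S := hp.to_iff
    rw [Function.comp_apply]
    by_cases hq : p ∈ S
    · rw [Set.indicator_of_mem (hp'.2 hq), Set.indicator_of_mem hq]
    · rw [Set.indicator_of_notMem (fun h1 => hq (hp'.1 h1)), Set.indicator_of_notMem hq]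
  set L : Submodule ℝ (Lp ℝ 2 μ) := T.eqLocus (1 : Lp ℝ 2 μ →L[ℝ] Lp ℝ 2 μ) with hL
  have hwL : hw.toLp _ ∈ L := hTw
  have hPw : ((L.orthogonalProjectionOnto (hw.toLp _) : L) : Lp ℝ 2 μ) = hw.toLp _ := by
    have := L.orthogonalProjectionOnto_mem_subspace_eq_self ⟨hw.toLp _, hwL⟩
    exact congrArg Subtype.val this
  have hnorm : ‖((L.orthogonalProjectionOnto (hh.toLp h) : L) : Lp ℝ 2 μ) - hw.toLp _‖ ≤
      ‖hh.toLp h - hw.toLp _‖ := by
    have e1 : ((L.orthogonalProjectionOnto (hh.toLp h) : L) : Lp ℝ 2 μ) - hw.toLp _ =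
        ((L.orthogonalProjectionOnto (hh.toLp h - hw.toLp _) : L) : Lp ℝ 2 μ) := by
      rw [map_sub, Submodule.coe_sub, hPw]
    rw [e1]
    have h2 : ‖L.orthogonalProjectionOnto (hh.toLp h - hw.toLp _)‖ ≤
        1 * ‖hh.toLp h - hw.toLp _‖ :=
      L.orthogonalProjectionOnto.le_of_opNorm_le L.orthogonalProjectionOnto_norm_le _
    rw [one_mul] at h2
    exact h2
  obtain ⟨φ, hφ, hae⟩ := (tendstoInMeasure_of_tendsto_Lp hconv).exists_seq_tendsto_ae
  refine ⟨⇑((L.orthogonalProjectionOnto (hh.toLp h) : L) : Lp ℝ 2 μ), φ,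
    (Lp.stronglyMeasurable _).measurable, hφ, ?_, ?_⟩
  · have hall : ∀ᵐ p ∂μ, ∀ n, (birkhoffAverage ℝ ⇑T _root_.id n (hh.toLp h) : Lp ℝ 2 μ) p =
        birkhoffAverage ℝ f h n p := by
      rw [ae_all_iff]
      intro n
      rw [hT]
      exact avg hf hh n
    filter_upwards [hae, hall] with p h1 h2
    refine h1.congr (fun i => ?_)
    exact h2 (φ i)
  · have e1 : eLpNorm (fun p => ((L.orthogonalProjectionOnto (hh.toLp h) : L) : Lp ℝ 2 μ) p -
        S.indicator (fun _ => (1 : ℝ)) p) 2 μ =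
        ‖((L.orthogonalProjectionOnto (hh.toLp h) : L) : Lp ℝ 2 μ) - hw.toLp _‖ₑ := by
      rw [Lp.enorm_def]
      refine eLpNorm_congr_ae ?_
      filter_upwards [Lp.coeFn_sub ((L.orthogonalProjectionOnto (hh.toLp h) : L) : Lp ℝ 2 μ)
        (hw.toLp _), hw.coeFn_toLp] with p h1 h2
      rw [h1, Pi.sub_apply, h2]
    have e2 : eLpNorm (fun p => h p - S.indicator (fun _ => (1 : ℝ)) p) 2 μ =
        ‖hh.toLp h - hw.toLp _‖ₑ := by
      rw [Lp.enorm_def]
      refine eLpNorm_congr_ae ?_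
      filter_upwards [Lp.coeFn_sub (hh.toLp h) (hw.toLp _), hw.coeFn_toLp, hh.coeFn_toLp]
        with p h1 h2 h3
      rw [h1, Pi.sub_apply, h2, h3]
    rw [e1, e2]
    exact enorm_le_iff_norm_le.2 hnorm

end SF

end Pool.Agent.SKP
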