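import Pool.Agent.Work.MP_adbfe6_an.SF.Stmts

/-!
# Item Blk: lower bounds for ball measures in slices
-/

set_option autoImplicit false

open Filter Topology MeasureTheory
open scoped ENNReal NNReal

namespace Pool.Agent.SKP

namespace SF

/-- Blk. -/
theorem i_Blk (hL : Lnd) : Blk := by
  intro B N _ _ _ _ _ lam _ ν _ T hT hpos r hr
  have : SecondCountableTopology N := inferInstance
  set W : Set ((B × N) × N) := {q | (q.1.1, q.2) ∈ T ∧ dist q.2 q.1.2 < r} with hWdef
  have hW : MeasurableSet W := by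
    refine MeasurableSet.inter ?_ ?_
    · exact (measurable_fst.fst.prodMk measurable_snd) hT
    · exact measurableSet_lt (measurable_snd.dist measurable_fst.snd) measurable_const
  set φ : B × N → ℝ≥0∞ := fun p => ν (Prod.mk p ⁻¹' W) with hφdef
  have hφ : Measurable φ := measurable_measure_prodMk_left hW
  have hφe : ∀ x y, φ (x, y) = ν {y' | (x, y') ∈ T ∧ dist y' y < r} := fun x y => rfl
  have hz : (lam.prod ν) (T ∩ φ ⁻¹' {0}) = 0 := by
    rw [Measure.measure_prod_null (hT.inter (hφ (measurableSet_singleton 0)))]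
    refine Filter.Eventually.of_forall fun x => ?_
    refine measure_mono_null ?_ (hL N ν (Prod.mk x ⁻¹' T))
    rintro y ⟨hy1, hy2⟩
    refine ⟨hy1, Metric.ball y r, Metric.isOpen_ball, Metric.mem_ball_self hr, ?_⟩
    have h0 : φ (x, y) = 0 := hy2
    rw [hφe] at h0
    exact h0
  by_contra hcon
  push Not at hcon
  have hn : ∀ n : ℕ, (lam.prod ν) (T ∩ {p | ((n : ℝ≥0∞) + 1)⁻¹ ≤ φ p}) = 0 := by
    intro n
    by_contra h
    obtain ⟨x, y, hxy, hlt⟩ := hcon _ Set.inter_subset_left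
      (hT.inter (measurableSet_le measurable_const hφ)) (pos_iff_ne_zero.2 h)
      (((n : ℝ≥0∞) + 1)⁻¹) (ENNReal.inv_pos.2 (by finiteness))
    exact absurd hxy.2 (not_le.2 hlt)
  have hsub : T ⊆ (T ∩ φ ⁻¹' {0}) ∪ ⋃ n : ℕ, (T ∩ {p | ((n : ℝ≥0∞) + 1)⁻¹ ≤ φ p}) := by
    intro p hp
    by_cases h0 : φ p = 0
    · exact Or.inl ⟨hp, h0⟩
    · right
      obtain ⟨n, hn'⟩ := ENNReal.exists_inv_nat_lt h0
      refine Set.mem_iUnion.2 ⟨n, hp, ?_⟩
      refine le_trans ?_ hn'.le
      exact ENNReal.inv_le_inv.2 le_self_add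
  have h1 : (lam.prod ν) T ≤ 0 := by
    refine (measure_mono hsub).trans ((measure_union_le _ _).trans ?_)
    rw [hz, measure_iUnion_null hn, add_zero]
  exact absurd hpos (not_lt.2 h1)

end SF

end Pool.Agent.SKP
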