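import Pool.Agent.Work.MP_adbfe6_an.SF.StmtsB

/-!
# Surface fibres, item Cnt: among many locally constant sets two agree
-/

set_option autoImplicit false

open Filter Topology MeasureTheory
open scoped ENNReal NNReal InnerProductSpace

namespace Pool.Agent.SKP

namespace SF

theorem i_Cnt (h : Dic) : Cnt := by
  classical
  intro N _ _ _ _ r hr
  obtain ⟨t, -, htf, hcov⟩ := finite_cover_balls_of_compact (isCompact_univ (X := N)) (half_pos hr)
  set c : Finset N := htf.toFinset with hc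
  refine ⟨2 ^ c.card, fun ν _ Y P hP => ?_⟩
  have hD : ∀ (i : ℕ) (k : N), ν (P i ∩ (Y ∩ Metric.ball k (r / 2))) = 0 ∨
      ν ((Y ∩ Metric.ball k (r / 2)) \ P i) = 0 := by
    intro i k
    refine h N ν (P i) (Y ∩ Metric.ball k (r / 2)) ?_
    filter_upwards [hP i] with q hq h1 h2
    refine hq h1.1 h2.1 ?_
    have h3 : dist q.1 k < r / 2 := h1.2
    have h4 : dist q.2 k < r / 2 := h2.2
    calc dist q.1 q.2 ≤ dist q.1 k + dist q.2 k := dist_triangle_right _ _ _
      _ < r := by linarith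
  have hmain : ∀ x y : ℕ,
      c.filter (fun k => ν (P x ∩ (Y ∩ Metric.ball k (r / 2))) = 0) =
        c.filter (fun k => ν (P y ∩ (Y ∩ Metric.ball k (r / 2))) = 0) →
      ν (symmDiff (P x) (P y) ∩ Y) = 0 := by
    intro x y hxy
    have hk : ∀ k ∈ c, ν (symmDiff (P x) (P y) ∩ (Y ∩ Metric.ball k (r / 2))) = 0 := by
      intro k hk
      have hiff : ν (P x ∩ (Y ∩ Metric.ball k (r / 2))) = 0 ↔
          ν (P y ∩ (Y ∩ Metric.ball k (r / 2))) = 0 := by
        have h1 := congrArg (fun s : Finset N => k ∈ s) hxy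
        simpa [Finset.mem_filter, hk] using h1
      by_cases hx : ν (P x ∩ (Y ∩ Metric.ball k (r / 2))) = 0
      · have hy := hiff.mp hx
        refine measure_mono_null ?_ (measure_union_null hx hy)
        rintro z ⟨hz, hzY⟩
        rcases hz with ⟨hz1, -⟩ | ⟨hz1, -⟩
        · exact Or.inl ⟨hz1, hzY⟩
        · exact Or.inr ⟨hz1, hzY⟩
      · have hy : ¬ ν (P y ∩ (Y ∩ Metric.ball k (r / 2))) = 0 := fun h' => hx (hiff.mpr h')
        have hx' := (hD x k).resolve_left hx
        have hy' := (hD y k).resolve_left hy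
        refine measure_mono_null ?_ (measure_union_null hx' hy')
        rintro z ⟨hz, hzY⟩
        rcases hz with ⟨-, hz2⟩ | ⟨-, hz2⟩
        · exact Or.inr ⟨hzY, hz2⟩
        · exact Or.inl ⟨hzY, hz2⟩
    have hU : ν (⋃ k ∈ c, (symmDiff (P x) (P y) ∩ (Y ∩ Metric.ball k (r / 2)))) = 0 :=
      (measure_biUnion_null_iff c.countable_toSet).mpr hk
    refine measure_mono_null ?_ hU
    rintro z ⟨hz, hzY⟩
    have hz' := hcov (Set.mem_univ z)
    rw [Set.mem_iUnion₂] at hz' ⊢
    obtain ⟨k, hkt, hzk⟩ := hz'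
    exact ⟨k, htf.mem_toFinset.mpr hkt, hz, hzY, hzk⟩
  obtain ⟨x, hx, y, hy, hne, he⟩ := Finset.exists_ne_map_eq_of_card_lt_of_maps_to
    (s := Finset.range (2 ^ c.card + 1)) (t := c.powerset)
    (f := fun i => c.filter (fun k => ν (P i ∩ (Y ∩ Metric.ball k (r / 2))) = 0))
    (by rw [Finset.card_powerset, Finset.card_range]; exact Nat.lt_succ_self _)
    (fun i _ => Finset.mem_powerset.mpr (Finset.filter_subset _ _))
  rw [Finset.mem_range] at hx hy
  rcases lt_or_gt_of_ne hne with hlt | hlt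
  · exact ⟨x, y, hlt, by omega, hmain x y he⟩
  · exact ⟨y, x, hlt, by omega, hmain y x he.symm⟩

end SF

end Pool.Agent.SKP
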