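import Pool.Agent.Work.MP_adbfe6_an.SF.StmtsB

/-!
# Surface fibres, part B (mixing): item Cou
-/

set_option autoImplicit false
set_option linter.unusedSectionVars false

open Filter Topology MeasureTheory
open scoped ENNReal NNReal InnerProductSpace

namespace Pool.Agent.SKP

namespace SF

namespace ICou

section

variable {M : Type} [MetricSpace M] [CompactSpace M] [MeasurableSpace M] [BorelSpace M]
  {μ : Measure M} [IsProbabilityMeasure μ]

/-- the inverse maps forward asymptotic pairs of `f` to forward asymptotic pairs -/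
theorem fas_symm (f : M ≃ₜ M) {p q : M} (h : FAs f p q) : FAs f (f.symm p) (f.symm q) := by
  unfold FAs at h ⊢
  have h1 : Tendsto (fun n : ℕ => dist (f^[n + 1] (f.symm p)) (f^[n + 1] (f.symm q))) atTop
      (𝓝 0) := by
    refine h.congr (fun n => ?_)
    rw [Function.iterate_succ_apply, Function.iterate_succ_apply, f.apply_symm_apply,
      f.apply_symm_apply]
  exact (tendsto_add_atTop_iff_nat 1).1 h1

/-- the map maps forward asymptotic pairs of `f` to forward asymptotic pairs -/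
theorem fas_map (f : M → M) {p q : M} (h : FAs f p q) : FAs f (f p) (f q) := by
  unfold FAs at h ⊢
  have h1 := (tendsto_add_atTop_iff_nat 1).2 h
  refine h1.congr (fun n => ?_)
  rw [Function.iterate_succ_apply, Function.iterate_succ_apply]

/-- a real function with trivial superlevel sets (after `arctan`) is constant a.e. -/
theorem const_of {g : M → ℝ} (hg : Measurable g)
    (h : ∀ s : Set ℝ, MeasurableSet s → μ (g ⁻¹' s) = 0 ∨ μ (g ⁻¹' s)ᶜ = 0) :
    ∃ c : ℝ, ∀ᵐ z ∂μ, g z = c := by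
  set w : ℝ → ℝ := fun x => Real.arctan x / Real.pi + 1 / 2 with hw
  have hwm : Measurable w := by
    rw [hw]
    exact (Real.continuous_arctan.measurable.div_const _).add_const _
  have hpi := Real.pi_pos
  have h0 : ∀ x, 0 ≤ w x := by
    intro x
    have h1 := Real.neg_pi_div_two_lt_arctan x
    have h2 : -(1 / 2) ≤ Real.arctan x / Real.pi := by
      rw [le_div_iff₀ hpi]
      linarith
    show 0 ≤ Real.arctan x / Real.pi + 1 / 2
    linarith
  have h1 : ∀ x, w x ≤ 1 := by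
    intro x
    have h1 := Real.arctan_lt_pi_div_two x
    have h2 : Real.arctan x / Real.pi ≤ 1 / 2 := by
      rw [div_le_iff₀ hpi]
      linarith
    show Real.arctan x / Real.pi + 1 / 2 ≤ 1
    linarith
  have h2 := Two.const_of_level (ν := μ) (u := fun z => w (g z)) (hwm.comp hg)
    (fun z => h0 _) (fun z => h1 _) (fun t => by
      have h3 := h (w ⁻¹' (Set.Ioi t)) (hwm measurableSet_Ioi)
      exact h3)
  set c := ∫ z, w (g z) ∂μ with hc
  refine ⟨Real.tan ((c - 1 / 2) * Real.pi), ?_⟩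
  filter_upwards [h2] with z hz
  have h3 : Real.arctan (g z) / Real.pi + 1 / 2 = c := hz
  have h4 : (c - 1 / 2) * Real.pi = Real.arctan (g z) := by
    rw [← h3]
    field_simp
    ring
  rw [h4, Real.tan_arctan]

end

end ICou

theorem i_Cou (h1 : Hil) (h2 : Vcl) (h3 : Ort) : Cou := by
  intro M _ _ _ _ μ _ f hf hbi S T hS hT
  have hf' : MeasurePreserving f.symm μ μ := Pool.PSTow.homeo_symm_mp f hf
  obtain ⟨V, hV, hVc⟩ := h2 M μ f
  obtain ⟨V', hV', hVc'⟩ := h2 M μ f.symm
  have ho := h3 M μ f hf V hV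
  have ho' := h3 M μ f.symm hf' V' hV'
  have hU : Pool.PSTow.ucmp f.symm hf' = (Pool.PSTow.ucmp f hf).symm := by
    refine LinearIsometryEquiv.ext (fun F => ?_)
    rw [Pool.PSTow.ucmp_symm, Pool.PSTow.ucmp_apply]
  rw [hU] at ho'
  set e : Lp ℝ 2 μ := Lp.const 2 μ (1 : ℝ) with he
  have hcoe : ⇑e =ᵐ[μ] fun _ => (1 : ℝ) := Lp.coeFn_const 2 μ 1
  have hce : ∀ (g : M → M) (hg : MeasurePreserving g μ μ), Pool.PSTow.cmp g hg e = e := by
    intro g hg
    refine Lp.ext ((Pool.PSTow.cmp_coe g hg e).trans ?_)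
    have h1 := hg.quasiMeasurePreserving.ae hcoe
    filter_upwards [h1, hcoe] with z h2 h3
    rw [h2, h3]
  have hinv : ∀ G ∈ V', (Pool.PSTow.ucmp f hf).symm G ∈ V' := by
    intro G hG
    obtain ⟨g, hgm, hgc, hgG⟩ := (hV' G).1 hG
    refine (hV' _).2 ⟨fun z => g (f.symm z), hgm.comp hf'.measurable, fun p q hpq => ?_, ?_⟩
    · exact hgc _ _ (ICou.fas_map f.symm hpq)
    · rw [Pool.PSTow.ucmp_symm]
      refine (Pool.PSTow.cmp_coe f.symm hf' G).trans ?_
      exact hf'.quasiMeasurePreserving.ae hgG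
  have key := h1 (Lp ℝ 2 μ) (Pool.PSTow.ucmp f hf) V V' hVc hVc' hinv ho ho' e (by
      rw [he]
      have h1 := Lp.norm_const (p := 2) (μ := μ) (c := (1 : ℝ)) (by simp)
      rw [h1]; simp) (by rw [Pool.PSTow.ucmp_apply]; exact hce _ _)
    ((hV e).2 ⟨fun _ => 1, measurable_const, fun _ _ _ => rfl, hcoe⟩)
    ((hV' e).2 ⟨fun _ => 1, measurable_const, fun _ _ _ => rfl, hcoe⟩) (by
      intro G hG hG'
      obtain ⟨g, hgm, hgc, hgG⟩ := (hV G).1 hG
      obtain ⟨g', hgm', hgc', hgG'⟩ := (hV' G).1 hG'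
      have hgg : g =ᵐ[μ] g' := hgG.symm.trans hgG'
      obtain ⟨c, hc⟩ := ICou.const_of (μ := μ) hgm (fun s hs => by
        refine hbi (g ⁻¹' s) ⟨hgm hs, ⟨g ⁻¹' s, ⟨hgm hs, fun p q hpq => ?_⟩, EventuallyEq.rfl⟩,
          ⟨g' ⁻¹' s, ⟨hgm' hs, fun p q hpq => ?_⟩, ?_⟩⟩
        · show g p ∈ s ↔ g q ∈ s
          rw [hgc p q hpq]
        · show g' p ∈ s ↔ g' q ∈ s
          rw [hgc' p q hpq]
        · filter_upwards [hgg] with z hz
          show (g' z ∈ s) = (g z ∈ s)
          rw [hz])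
      refine ⟨c, Lp.ext ?_⟩
      have h1 := Lp.coeFn_smul c e
      filter_upwards [hc, hgG, h1, hcoe] with z h2 h2' h3 h4
      rw [h2', h2, h3]
      simp [h4])
  have h1 := key (indicatorConstLp 2 hS (measure_ne_top μ S) (1 : ℝ))
    (indicatorConstLp 2 hT (measure_ne_top μ T) (1 : ℝ))
  have h2 : ∀ n, ⟪Pool.PSTow.pw (Pool.PSTow.ucmp f hf) n
      (indicatorConstLp 2 hS (measure_ne_top μ S) (1 : ℝ)),
      indicatorConstLp 2 hT (measure_ne_top μ T) (1 : ℝ)⟫_ℝ = μ.real (f^[n] ⁻¹' S ∩ T) := by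
    intro n
    rw [Pool.PSTow.pw_ucmp, real_inner_comm, L2.inner_indicatorConstLp_one]
    have h3 := Pool.PSTow.cmp_coe f^[n] (hf.iterate n)
      (indicatorConstLp 2 hS (measure_ne_top μ S) (1 : ℝ))
    have h4 := (hf.iterate n).quasiMeasurePreserving.ae
      (indicatorConstLp_coeFn (p := 2) (hs := hS) (hμs := measure_ne_top μ S) (c := (1 : ℝ)))
    have h5 : ∀ᵐ z ∂(μ.restrict T),
        (Pool.PSTow.cmp f^[n] (hf.iterate n)
          (indicatorConstLp 2 hS (measure_ne_top μ S) (1 : ℝ))) z =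
        (f^[n] ⁻¹' S).indicator (fun _ => (1 : ℝ)) z := by
      refine ae_restrict_of_ae ?_
      filter_upwards [h3, h4] with z h6 h7
      rw [h6, h7]
      rfl
    rw [integral_congr_ae h5, integral_indicator ((hf.iterate n).measurable hS)]
    simp [Measure.restrict_restrict ((hf.iterate n).measurable hS), Measure.real]
  have h3 : ⟪(indicatorConstLp 2 hS (measure_ne_top μ S) (1 : ℝ)), e⟫_ℝ = μ.real S := by
    rw [L2.inner_indicatorConstLp_one, integral_congr_ae (ae_restrict_of_ae hcoe)]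
    simp
  have h4 : ⟪e, (indicatorConstLp 2 hT (measure_ne_top μ T) (1 : ℝ))⟫_ℝ = μ.real T := by
    rw [real_inner_comm, L2.inner_indicatorConstLp_one, integral_congr_ae (ae_restrict_of_ae hcoe)]
    simp
  simp only [h2] at h1
  rw [h3, h4] at h1
  have h5 : μ S * μ T ≠ ∞ := ENNReal.mul_ne_top (measure_ne_top μ S) (measure_ne_top μ T)
  refine (ENNReal.tendsto_toReal_iff (fun n => measure_ne_top μ _) h5).1 ?_
  rw [ENNReal.toReal_mul]
  exact h1

end SF

end Pool.Agent.SKP
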