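import Pool.Agent.Work.MP_adbfe6_an.SF.StmtsB

/-!
# Item Dic: a locally constant set is full or null in a small piece
-/

set_option autoImplicit false

open Filter Topology MeasureTheory
open scoped ENNReal NNReal

namespace Pool.Agent.SKP.SF

theorem i_Dic : Dic := by
  intro N _ ν _ P Y h
  have h0 : (ν.prod ν) ((P ∩ Y) ×ˢ (Y \ P)) = 0 := by
    refine measure_mono_null ?_ (ae_iff.1 h)
    rintro ⟨a, b⟩ ⟨⟨ha, haY⟩, hbY, hb⟩ hab
    exact hb ((hab haY hbY).1 ha)
  rw [Measure.prod_prod] at h0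
  exact mul_eq_zero.1 h0

end Pool.Agent.SKP.SF
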