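import Pool.Agent.Work.MP_adbfe6_an.SF.Stmts

/-!
# Surface fibres: slices of invariant sets have full support (item Ful)
-/

set_option autoImplicit false
set_option linter.unusedSectionVars false

open Filter Topology MeasureTheory
open scoped ENNReal NNReal

namespace Pool.Agent.SKP

namespace SF

namespace Ful

variable {N : Type} [MetricSpace N] [CompactSpace N] [MeasurableSpace N] [BorelSpace N]

/-- The complement of the support of `X`. -/
def Off (ν : Measure N) (X : Set N) : Set N := {z | ∃ V, IsOpen V ∧ z ∈ V ∧ ν (X ∩ V) = 0}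

theorem isOpen_Off (ν : Measure N) (X : Set N) : IsOpen (Off ν X) := by
  rw [isOpen_iff_forall_mem_open]
  rintro z ⟨V, hV, hz, h0⟩
  exact ⟨V, fun y hy => ⟨V, hV, hy, h0⟩, hV, hz⟩

theorem shift (ν : Measure N) (X : Set N) (hX : MeasurableSet X) (h : N ≃ₜ N)
    (hm : MeasurePreserving h ν ν) (hi : h ⁻¹' X =ᵐ[ν] X) (W : Set N) (hW : IsOpen W) :
    ν (X ∩ h ⁻¹' W) = ν (X ∩ W) := by
  rw [← hm.measure_preimage (hX.inter hW.measurableSet).nullMeasurableSet, Set.preimage_inter]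
  exact (measure_congr (hi.inter (ae_eq_refl _))).symm

theorem mem_Off (ν : Measure N) (X : Set N) (hX : MeasurableSet X) (h : N ≃ₜ N)
    (hm : MeasurePreserving h ν ν) (hi : h ⁻¹' X =ᵐ[ν] X) (z : N) :
    h z ∈ Off ν X ↔ z ∈ Off ν X := by
  constructor
  · rintro ⟨V, hV, hz, h0⟩
    refine ⟨h ⁻¹' V, hV.preimage h.continuous, hz, ?_⟩
    rw [shift ν X hX h hm hi V hV]
    exact h0
  · rintro ⟨V, hV, hz, h0⟩
    have hW : IsOpen (h.symm ⁻¹' V) := hV.preimage h.symm.continuous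
    refine ⟨h.symm ⁻¹' V, hW, ?_, ?_⟩
    · show h.symm (h z) ∈ V
      rw [h.symm_apply_apply]
      exact hz
    · rw [← shift ν X hX h hm hi _ hW]
      have e : h ⁻¹' (h.symm ⁻¹' V) = V := by
        ext y
        show h.symm (h y) ∈ V ↔ y ∈ V
        rw [h.symm_apply_apply]
      rw [e]
      exact h0

end Ful

/-- Version for a set which is almost invariant under the holonomies (no hypothesis on `D.s.A` or
`D.s.F`). -/
theorem ful_of_hol (h1 : Hom) (h2 : Lnd) {B Ws Wu N : Type} [NormedAddCommGroup B] [CompactSpace B]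
    [NormedAddCommGroup Ws] [NormedAddCommGroup Wu] [MetricSpace N] [CompactSpace N]
    (D : Two B Ws Wu N) [MeasurableSpace B] [BorelSpace B] [MeasurableSpace N] [BorelSpace N]
    [NormedSpace ℝ Ws] [NormedSpace ℝ Wu] [FiniteDimensional ℝ Ws] [FiniteDimensional ℝ Wu]
    [MeasurableSpace Ws] [BorelSpace Ws] [MeasurableSpace Wu] [BorelSpace Wu]
    (ν : Measure N) [IsProbabilityMeasure ν] [ν.IsOpenPosMeasure] (lam : Measure B)
    [IsProbabilityMeasure lam] [lam.IsAddLeftInvariant]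
    (hg : ∀ x, MeasurePreserving (D.s.g x) ν ν) (hacc : D.EssAcc lam ν)
    (S : Set (B × N)) (hS : MeasurableSet S)
    (hEs : ∀ v, S.indicator (fun _ => (1 : ℝ)) ∘ D.s.T v =ᵐ[lam.prod ν]
      S.indicator (fun _ => (1 : ℝ)))
    (hEu : ∀ w, S.indicator (fun _ => (1 : ℝ)) ∘ D.u.T w =ᵐ[lam.prod ν]
      S.indicator (fun _ => (1 : ℝ)))
    (hpos : 0 < (lam.prod ν) S) :
    ∀ᵐ x ∂lam, ∀ U : Set N, IsOpen U → U.Nonempty → 0 < ν (Prod.mk x ⁻¹' S ∩ U) := by
  set E : B × N → ℝ := S.indicator (fun _ => (1 : ℝ)) with hEdef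
  have hE : Measurable E := measurable_const.indicator hS
  have hE0 : ∀ p, 0 ≤ E p := fun p => Set.indicator_nonneg (fun _ _ => zero_le_one) p
  have hE1 : ∀ p, E p ≤ 1 := fun p => Set.indicator_le_self' (fun _ _ => zero_le_one) p
  let m : Measure (Ws × Wu) := Measure.addHaar
  obtain ⟨ρ, hρ, hρc, hρ0, hρ1⟩ := Two.exists_moll (Ws := Ws) (Wu := Wu) m
  have hem : ∀ x, Measurable (fun z => D.bun.e m ρ E x z) := fun x =>
    (D.bun.e_meas m hρ hE).comp (measurable_const.prodMk measurable_id)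
  let X : B → Set N := fun x => {z | 1 / 2 < D.bun.e m ρ E x z}
  have hXm : ∀ x, MeasurableSet (X x) := fun x => measurableSet_lt measurable_const (hem x)
  have hde := D.dens_eq m hg hE hEs hEu hρ hρc hρ1
  have hXS : ∀ᵐ p ∂(lam.prod ν), p.2 ∈ X p.1 ↔ p ∈ S := by
    filter_upwards [hde] with p hp
    show 1 / 2 < D.bun.e m ρ E p.1 p.2 ↔ p ∈ S
    rw [hp]
    show 1 / 2 < S.indicator (fun _ => (1 : ℝ)) p ↔ p ∈ S
    by_cases hpS : p ∈ S
    · rw [Set.indicator_of_mem hpS]
      exact ⟨fun _ => hpS, fun _ => by norm_num⟩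
    · rw [Set.indicator_of_notMem hpS]
      exact ⟨fun h => absurd h (by norm_num), fun h => absurd h hpS⟩
  have hXS2 : ∀ᵐ x ∂lam, ∀ᵐ z ∂ν, (z ∈ X x ↔ (x, z) ∈ S) := Measure.ae_ae_of_ae_prod hXS
  have hinv : ∀ l : List (Mv Ws Wu), (∀ a ∈ l, a.leaf) → ∀ x,
      D.hol l x ⁻¹' X (D.brun l x) =ᵐ[ν] X x := by
    intro l hl x
    filter_upwards [D.dens_run_leaf m hg hE hE0 hE1 hEs hEu hρ hρc hρ1 hρ0 l hl x] with z hz
    apply propext
    show 1 / 2 < D.bun.e m ρ E (D.brun l x) (D.hol l x z) ↔ 1 / 2 < D.bun.e m ρ E x z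
    rw [hz]
  have hconst : ∀ x y, ν (X x) = ν (X y) := by
    intro x y
    obtain ⟨v, w, hvw⟩ := D.surj (y - x)
    have hb : D.brun [Mv.s v, Mv.u w] x = y := by
      show x + D.s.j v + D.u.j w = y
      rw [add_assoc, hvw, add_sub_cancel]
    have h3 := hinv [Mv.s v, Mv.u w]
      (by
        intro a ha
        simp only [List.mem_cons, List.not_mem_nil, or_false] at ha
        rcases ha with rfl | rfl
        · trivial
        · trivial) x
    rw [hb] at h3
    rw [← measure_congr h3]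
    exact (D.hol_mp hg [Mv.s v, Mv.u w] x).measure_preimage (hXm y).nullMeasurableSet
  have hposX : ∀ x, 0 < ν (X x) := by
    intro x
    rw [pos_iff_ne_zero]
    intro h0
    have h3 : (lam.prod ν) S = 0 := by
      rw [Measure.measure_prod_null hS]
      filter_upwards [hXS2] with y hy
      have h4 : X y =ᵐ[ν] Prod.mk y ⁻¹' S := by
        filter_upwards [hy] with z hz
        exact propext hz
      show ν (Prod.mk y ⁻¹' S) = 0
      rw [← measure_congr h4, hconst y x, h0]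
    rw [h3] at hpos
    exact lt_irrefl _ hpos
  have hoff : ∀ x, Ful.Off ν (X x) = ∅ := by
    intro x
    have hO := Ful.isOpen_Off ν (X x)
    have h3 : ∀ l : List (Mv Ws Wu), (∀ a ∈ l, a.leaf) → D.brun l x = x →
        ∀ z, D.hol l x z ∈ Ful.Off ν (X x) ↔ z ∈ Ful.Off ν (X x) := by
      intro l hl hb z
      obtain ⟨h, hh⟩ := h1 B Ws Wu N D l x
      have hfun : (h : N → N) = D.hol l x := funext hh
      have hm : MeasurePreserving h ν ν := by
        rw [hfun]
        exact D.hol_mp hg l x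
      have hi : h ⁻¹' X x =ᵐ[ν] X x := by
        have h4 := hinv l hl x
        rw [hb] at h4
        rw [hfun]
        exact h4
      rw [← hh z]
      exact Ful.mem_Off ν (X x) (hXm x) h hm hi z
    rcases D.strict_trivial hg hacc x hO.measurableSet.nullMeasurableSet h3 with h4 | h4
    · exact (hO.measure_eq_zero_iff ν).1 h4
    · exfalso
      have h5 := h2 N ν (X x)
      have h6 : ν (X x) ≤ ν {z | z ∈ X x ∧ ∃ V, IsOpen V ∧ z ∈ V ∧ ν (X x ∩ V) = 0} +
          ν (Ful.Off ν (X x))ᶜ := by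
        refine le_trans (measure_mono ?_) (measure_union_le _ _)
        intro z hz
        by_cases hzO : z ∈ Ful.Off ν (X x)
        · exact Or.inl ⟨hz, hzO⟩
        · exact Or.inr hzO
      rw [h5, h4, add_zero] at h6
      exact absurd (hposX x) (not_lt.2 h6)
  filter_upwards [hXS2] with x hx U hU hUne
  have h4 : X x =ᵐ[ν] Prod.mk x ⁻¹' S := by
    filter_upwards [hx] with z hz
    exact propext hz
  have h5 : ν (X x ∩ U) = ν (Prod.mk x ⁻¹' S ∩ U) := measure_congr (h4.inter (ae_eq_refl _))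
  rw [← h5, pos_iff_ne_zero]
  intro h0
  obtain ⟨z, hz⟩ := hUne
  have h6 : z ∈ Ful.Off ν (X x) := ⟨U, hU, hz, h0⟩
  rw [hoff x] at h6
  exact h6

theorem i_Ful (h1 : Hom) (h2 : Lnd) : Ful := by
  intro B Ws Wu N _ _ _ _ _ _ D _ _ _ _ _ _ _ _ _ _ _ _ ν _ _ lam _ _ hg hA hacc S hS hSF hpos
  have hE : Measurable (S.indicator (fun _ => (1 : ℝ))) := measurable_const.indicator hS
  have hE0 : ∀ p, 0 ≤ S.indicator (fun _ => (1 : ℝ)) p := fun p =>
    Set.indicator_nonneg (fun _ _ => zero_le_one) p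
  have hE1 : ∀ p, S.indicator (fun _ => (1 : ℝ)) p ≤ 1 := fun p =>
    Set.indicator_le_self' (fun _ _ => zero_le_one) p
  have he : S.indicator (fun _ => (1 : ℝ)) ∘ D.s.F =ᵐ[lam.prod ν]
      S.indicator (fun _ => (1 : ℝ)) := by
    filter_upwards [hSF] with p hp
    have h3 : D.s.F p ∈ S ↔ p ∈ S := iff_of_eq hp
    show S.indicator (fun _ => (1 : ℝ)) (D.s.F p) = S.indicator (fun _ => (1 : ℝ)) p
    by_cases hp : p ∈ S
    · rw [Set.indicator_of_mem hp, Set.indicator_of_mem (h3.2 hp)]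
    · rw [Set.indicator_of_notMem hp, Set.indicator_of_notMem (fun h => hp (h3.1 h))]
  exact ful_of_hol h1 h2 D ν lam hg hacc S hS (D.E_s hg hA hE hE0 hE1 he)
    (D.E_u hg hA hE hE0 hE1 he) hpos

end SF

end Pool.Agent.SKP
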