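import Pool.Agent.Work.MP_adbfe6_an.SF.StmtsB

/-!
# Surface fibres, part B: item Hil (abstract mixing in a Hilbert space)
-/

set_option autoImplicit false

open Filter Topology MeasureTheory
open scoped ENNReal NNReal InnerProductSpace

namespace Pool.Agent.SKP

namespace SF

theorem i_Hil : Hil := by
  intro H _ _ _ U V V' hVc hVc' hinv hV hV' e he hUe heV heV' hcn F G
  have hcV : CompleteSpace V := hVc.completeSpace_coe
  have hcV' : CompleteSpace V' := hVc'.completeSpace_coe
  -- the vectors orthogonal to `V'` tend to zero weakly in the other direction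
  have hs' : V'ᗮ ≤ Pool.PSTow.wz U := by
    intro F hF G
    have hpi : ∀ n, ∀ G ∈ V', Pool.PSTow.pw U.symm n G ∈ V' := by
      intro n
      induction n with
      | zero => intro G hG; exact hG
      | succ n ih =>
        intro G hG
        rw [Pool.PSTow.pw_succ']
        exact ih _ (hinv G hG)
    obtain ⟨G₁, hG₁, G₂, hG₂, hsum⟩ := Submodule.exists_add_mem_mem_orthogonal (K := V') G
    have h2 : Tendsto (fun n => ⟪Pool.PSTow.pw U.symm n G₂, F⟫_ℝ) atTop (𝓝 0) := hV' hG₂ F
    have h5 : ∀ n, ⟪Pool.PSTow.pw U n F, G⟫_ℝ = ⟪Pool.PSTow.pw U.symm n G₂, F⟫_ℝ := by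
      intro n
      have h6 : ⟪F, Pool.PSTow.pw U.symm n G₁⟫_ℝ = 0 := by
        rw [real_inner_comm]
        exact (Submodule.mem_orthogonal _ _).1 hF _ (hpi n G₁ hG₁)
      rw [Pool.PSTow.pw_inner, hsum, map_add, inner_add_right, h6, zero_add, real_inner_comm]
    simp only [h5]
    exact h2
  -- decomposition
  set Y : Submodule ℝ H := (Vᗮ ⊔ V'ᗮ).topologicalClosure with hY
  have hYw : Y ≤ Pool.PSTow.wz U :=
    Submodule.topologicalClosure_minimal _ (sup_le hV hs') (Pool.PSTow.wz_closed _)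
  have hcY : CompleteSpace Y := (Submodule.isClosed_topologicalClosure _).completeSpace_coe
  obtain ⟨F₂, hF₂, F₁, hF₁, hsum⟩ := Submodule.exists_add_mem_mem_orthogonal (K := Y) F
  obtain ⟨c, hc₁⟩ : ∃ c : ℝ, F₁ = c • e := by
    refine hcn F₁ ?_ ?_
    · rw [← Submodule.orthogonal_orthogonal V]
      refine (Submodule.mem_orthogonal _ _).2 fun F hF => ?_
      exact (Submodule.mem_orthogonal _ _).1 hF₁ F
        (Submodule.le_topologicalClosure _ (Submodule.mem_sup_left hF))
    · rw [← Submodule.orthogonal_orthogonal V']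
      refine (Submodule.mem_orthogonal _ _).2 fun F hF => ?_
      exact (Submodule.mem_orthogonal _ _).1 hF₁ F
        (Submodule.le_topologicalClosure _ (Submodule.mem_sup_right hF))
  have heY : e ∈ Yᗮ := by
    rw [hY, Submodule.orthogonal_closure, ← Submodule.inf_orthogonal]
    exact ⟨Submodule.le_orthogonal_orthogonal V heV, Submodule.le_orthogonal_orthogonal V' heV'⟩
  have h2 : ⟪F₂, e⟫_ℝ = 0 := (Submodule.mem_orthogonal _ _).1 heY F₂ hF₂
  have h3 : ⟪F, e⟫_ℝ = c := by
    rw [hsum, hc₁, inner_add_left, h2, inner_smul_left, real_inner_self_eq_norm_sq, he]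
    simp
  have hpe : ∀ n, Pool.PSTow.pw U n e = e := by
    intro n
    induction n with
    | zero => rfl
    | succ n ih => rw [Pool.PSTow.pw_succ, ih, hUe]
  have h4 : ∀ n, ⟪Pool.PSTow.pw U n F, G⟫_ℝ =
      ⟪Pool.PSTow.pw U n F₂, G⟫_ℝ + c * ⟪e, G⟫_ℝ := by
    intro n
    rw [hsum, hc₁, map_add, inner_add_left, map_smul, hpe, inner_smul_left]
    simp
  simp only [h4]
  rw [h3]
  simpa using (hYw hF₂ G).add_const (c * ⟪e, G⟫_ℝ)

end SF

end Pool.Agent.SKP
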