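import Pool.Agent.Work.MP_adbfe6_an.SF.Stmts

/-! Item Hom of the block SF: the holonomies are homeomorphisms. -/

set_option autoImplicit false

open Filter Topology MeasureTheory
open scoped ENNReal NNReal

namespace Pool.Agent.SKP

namespace SF

theorem i_Hom : Hom := by
  intro B Ws Wu N _ _ _ _ _ _ D l
  induction l with
  | nil => exact fun x => ⟨Homeomorph.refl N, fun z => rfl⟩
  | cons a l ih =>
    intro x
    obtain ⟨h, hz⟩ := ih (D.bact a x)
    have h1 : ∃ h' : N ≃ₜ N, ∀ z, h' z = D.fact a x z := by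
      cases a with
      | s v => exact ⟨D.s.Sh v x, fun z => rfl⟩
      | u w => exact ⟨D.u.Sh w x, fun z => rfl⟩
      | f => exact ⟨D.s.g x, fun z => rfl⟩
    obtain ⟨h', hz'⟩ := h1
    refine ⟨h'.trans h, fun z => ?_⟩
    show h (h' z) = D.hol l (D.bact a x) (D.fact a x z)
    rw [hz, hz']

end SF

end Pool.Agent.SKP
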