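import Pool.Agent.Work.MP_adbfe6_an.SF.Stmts

/-!
# Surface fibres: item `Lnd`
-/

set_option autoImplicit false

open Filter Topology MeasureTheory

namespace Pool.Agent.SKP

namespace SF

theorem i_Lnd : Lnd := by
  intro N _ _ _ _ ν X
  have hc := TopologicalSpace.countable_countableBasis N
  have hb := TopologicalSpace.isBasis_countableBasis N
  have h1 : {z | z ∈ X ∧ ∃ V, IsOpen V ∧ z ∈ V ∧ ν (X ∩ V) = 0} ⊆
      ⋃ U ∈ {U | U ∈ TopologicalSpace.countableBasis N ∧ ν (X ∩ U) = 0}, X ∩ U := by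
    rintro z ⟨hzX, V, hV, hzV, hn⟩
    obtain ⟨U, hU, hzU, hUV⟩ := hb.exists_subset_of_mem_open hzV hV
    refine Set.mem_biUnion (x := U) ⟨hU, ?_⟩ ⟨hzX, hzU⟩
    exact measure_mono_null (Set.inter_subset_inter_right X hUV) hn
  refine measure_mono_null h1 ?_
  rw [measure_biUnion_null_iff (hc.mono fun U hU => hU.1)]
  intro U hU
  exact hU.2

end SF

end Pool.Agent.SKP
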