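import Pool.Agent.Work.MP_adbfe6_an.SF.StmtsB

/-!
# Surface fibres, part B, item Loc: bi-saturated sets are locally constant on blocks
-/

set_option autoImplicit false

open Filter Topology MeasureTheory
open scoped ENNReal NNReal InnerProductSpace

namespace Pool.Agent.SKP

namespace SF

theorem i_Loc : Loc := by
  intro d N _ _ _ _ ν _ A D Ω Wu Ws hW Λ r hΛΩ hΛ P hP
  obtain ⟨_, ⟨Sf, ⟨hSfm, hSf⟩, hSfe⟩, ⟨Sb, ⟨hSbm, hSb⟩, hSbe⟩⟩ := hP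
  have a3 := hW.ac Sbᶜ Sf hSbm.compl hSfm
    (by
      intro p hp z hz hzS
      exact hp.1 ((hSb _ _ (hW.asym_u p hp.2 z hz)).2 hzS))
    (by
      intro p hp z hz
      exact (hSf _ _ (hW.asym_s p hp.2 z hz)).1 hp.1)
    (by
      have h5 : (Sbᶜ ∩ Sf : Set (Tor d × N)) =ᵐ[volume.prod ν] (Pᶜ ∩ P : Set (Tor d × N)) :=
        hSbe.compl.inter hSfe
      rw [measure_congr h5, Set.compl_inter_self, measure_empty])
  have a4 := hW.ac Sb Sfᶜ hSbm hSfm.compl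
    (by
      intro p hp z hz
      exact (hSb _ _ (hW.asym_u p hp.2 z hz)).1 hp.1)
    (by
      intro p hp z hz hzS
      exact hp.1 ((hSf _ _ (hW.asym_s p hp.2 z hz)).2 hzS))
    (by
      have h5 : (Sb ∩ Sfᶜ : Set (Tor d × N)) =ᵐ[volume.prod ν] (P ∩ Pᶜ : Set (Tor d × N)) :=
        hSbe.inter hSfe.compl
      rw [measure_congr h5, Set.inter_compl_self, measure_empty])
  have a5 : ∀ᵐ x ∂(volume : Measure (Tor d)), ∀ᵐ y ∂ν, ((x, y) ∈ Sf ↔ (x, y) ∈ P) :=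
    Measure.ae_ae_of_ae_prod (hSfe.mono fun p hp => Iff.of_eq hp)
  have a6 : ∀ᵐ x ∂(volume : Measure (Tor d)), ∀ᵐ y ∂ν, ((x, y) ∈ Sb ↔ (x, y) ∈ P) :=
    Measure.ae_ae_of_ae_prod (hSbe.mono fun p hp => Iff.of_eq hp)
  filter_upwards [a3, a4, a5, a6] with x b3 b4 b5 b6
  have c5 : ∀ᵐ q ∂(ν.prod ν), ((x, q.2) ∈ Sf ↔ (x, q.2) ∈ P) :=
    Measure.quasiMeasurePreserving_snd.ae b5
  have c6 : ∀ᵐ q ∂(ν.prod ν), ((x, q.1) ∈ Sb ↔ (x, q.1) ∈ P) :=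
    Measure.quasiMeasurePreserving_fst.ae b6
  filter_upwards [b3, b4, c5, c6] with q e3 e4 e5 e6 h1 h2 hr
  obtain ⟨w, hw1, hw2⟩ := hΛ x q.1 q.2 h1 h2 hr
  constructor
  · intro hp
    by_contra hn
    have d1 := e4 ⟨e6.2 hp, hΛΩ h1⟩ ⟨fun h => hn (e5.1 h), hΛΩ h2⟩
    exact Set.disjoint_left.1 d1 hw1 hw2
  · intro hp
    by_contra hn
    have d1 := e3 ⟨fun h => hn (e6.1 h), hΛΩ h1⟩ ⟨e5.2 hp, hΛΩ h2⟩
    exact Set.disjoint_left.1 d1 hw1 hw2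

end SF

end Pool.Agent.SKP
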