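import Pool.Agent.Work.MP_adbfe6_an.SF.Stmts

/-! Item [adbfe6 SF Lsp] (helper51): upper limits of averages at forward asymptotic points. -/

set_option autoImplicit false

open Filter Topology MeasureTheory
open scoped ENNReal NNReal

namespace Pool.Agent.SKP

namespace SF

namespace ILsp

/-- The averages are bounded by the norm. -/
theorem bdd {M : Type} [MetricSpace M] [CompactSpace M] (f : M → M) (h : C(M, ℝ)) (n : ℕ) (p : M) :
    |birkhoffAverage ℝ f (⇑h) n p| ≤ ‖h‖ := by
  unfold birkhoffAverage birkhoffSum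
  rw [smul_eq_mul, abs_mul]
  have h1 : |∑ k ∈ Finset.range n, h (f^[k] p)| ≤ n * ‖h‖ := by
    refine (Finset.abs_sum_le_sum_abs _ _).trans ?_
    have h2 : ∑ k ∈ Finset.range n, |h (f^[k] p)| ≤ ∑ _k ∈ Finset.range n, ‖h‖ :=
      Finset.sum_le_sum fun k _ => by
        have := h.norm_coe_le_norm (f^[k] p)
        rwa [Real.norm_eq_abs] at this
    rwa [Finset.sum_const, Finset.card_range, nsmul_eq_mul] at h2
  rcases Nat.eq_zero_or_pos n with hn | hn
  · subst hn
    simp
  · have hn' : (0 : ℝ) < n := by exact_mod_cast hn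
    rw [abs_of_pos (inv_pos.2 hn'), inv_mul_le_iff₀ hn']
    exact h1

/-- The averages at forward asymptotic points have the same behaviour. -/
theorem diff {M : Type} [MetricSpace M] [CompactSpace M] (f : M → M) (h : C(M, ℝ)) (p q : M)
    (hpq : Tendsto (fun n : ℕ => dist (f^[n] p) (f^[n] q)) atTop (𝓝 0)) :
    Tendsto (fun n : ℕ => birkhoffAverage ℝ f (⇑h) n p - birkhoffAverage ℝ f (⇑h) n q) atTop
      (𝓝 0) := by
  have hu : UniformContinuous h := CompactSpace.uniformContinuous_of_continuous h.continuous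
  have h1 : Tendsto (fun n : ℕ => h (f^[n] p) - h (f^[n] q)) atTop (𝓝 0) := by
    rw [Metric.tendsto_atTop]
    intro ε hε
    obtain ⟨δ, hδ, hh⟩ := Metric.uniformContinuous_iff.1 hu ε hε
    obtain ⟨n0, hn0⟩ := (Metric.tendsto_atTop.1 hpq) δ hδ
    refine ⟨n0, fun n hn => ?_⟩
    have h2 := hn0 n hn
    rw [Real.dist_eq, sub_zero, abs_of_nonneg dist_nonneg] at h2
    have h3 := hh h2
    rw [Real.dist_eq] at h3
    rwa [Real.dist_eq, sub_zero]
  refine h1.cesaro.congr fun n => ?_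
  unfold birkhoffAverage birkhoffSum
  rw [smul_eq_mul, smul_eq_mul, Finset.sum_sub_distrib, mul_sub]

/-- One inequality between the upper limits. -/
theorem le {a b : ℕ → ℝ} {C : ℝ} (ha : ∀ i, |a i| ≤ C) (hb : ∀ i, |b i| ≤ C)
    (hab : Tendsto (fun i => a i - b i) atTop (𝓝 0)) : limsup a atTop ≤ limsup b atTop := by
  have haB : IsBoundedUnder (· ≤ ·) atTop a := isBoundedUnder_of ⟨C, fun i => (abs_le.1 (ha i)).2⟩
  have haG : IsBoundedUnder (· ≥ ·) atTop a := isBoundedUnder_of ⟨-C, fun i => (abs_le.1 (ha i)).1⟩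
  have hbB : IsBoundedUnder (· ≤ ·) atTop b := isBoundedUnder_of ⟨C, fun i => (abs_le.1 (hb i)).2⟩
  have hbG : IsBoundedUnder (· ≥ ·) atTop b := isBoundedUnder_of ⟨-C, fun i => (abs_le.1 (hb i)).1⟩
  refine le_of_forall_pos_le_add fun ε hε => ?_
  rw [← limsup_add_const atTop b ε hbB hbG.isCoboundedUnder_le]
  refine limsup_le_limsup ?_ haG.isCoboundedUnder_le
    (isBoundedUnder_of ⟨C + ε, fun i => by have := (abs_le.1 (hb i)).2; linarith⟩)
  have h1 : ∀ᶠ i in atTop, a i - b i < ε := hab.eventually (gt_mem_nhds hε)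
  filter_upwards [h1] with i hi
  linarith

end ILsp

theorem i_Lsp : Lsp := by
  intro M _ _ f h φ hφ p q hpq
  have h1 := (ILsp.diff f h p q hpq).comp hφ.tendsto_atTop
  have h2 : Tendsto (fun n : ℕ => dist (f^[n] q) (f^[n] p)) atTop (𝓝 0) :=
    hpq.congr fun n => dist_comm _ _
  have h3 := (ILsp.diff f h q p h2).comp hφ.tendsto_atTop
  exact le_antisymm
    (ILsp.le (fun i => ILsp.bdd f h (φ i) p) (fun i => ILsp.bdd f h (φ i) q) h1)
    (ILsp.le (fun i => ILsp.bdd f h (φ i) q) (fun i => ILsp.bdd f h (φ i) p) h3)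

end SF

end Pool.Agent.SKP
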