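import Pool.Agent.Work.MP_adbfe6_an.SF.StmtsB

/-!
# Surface fibres, part B, item Mzr: weak limits are saturated
-/

set_option autoImplicit false

open Filter Topology MeasureTheory
open scoped ENNReal NNReal InnerProductSpace

namespace Pool.Agent.SKP

namespace SF

namespace IMzr

/-- One inequality between the upper limits. -/
theorem le {a b : ℕ → ℝ} {C : ℝ} (ha : ∀ i, |a i| ≤ C) (hb : ∀ i, |b i| ≤ C)
    (hab : Tendsto (fun i => a i - b i) atTop (𝓝 0)) : limsup a atTop ≤ limsup b atTop := by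
  have haG : IsBoundedUnder (· ≥ ·) atTop a := isBoundedUnder_of ⟨-C, fun i => (abs_le.1 (ha i)).1⟩
  have hbB : IsBoundedUnder (· ≤ ·) atTop b := isBoundedUnder_of ⟨C, fun i => (abs_le.1 (hb i)).2⟩
  have hbG : IsBoundedUnder (· ≥ ·) atTop b := isBoundedUnder_of ⟨-C, fun i => (abs_le.1 (hb i)).1⟩
  refine le_of_forall_pos_le_add fun ε hε => ?_
  rw [← limsup_add_const atTop b ε hbB hbG.isCoboundedUnder_le]
  refine limsup_le_limsup ?_ haG.isCoboundedUnder_le
    (isBoundedUnder_of ⟨C + ε, fun i => by have := (abs_le.1 (hb i)).2; linarith⟩)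
  have h1 : ∀ᶠ i in atTop, a i - b i < ε := hab.eventually (gt_mem_nhds hε)
  filter_upwards [h1] with i hi
  linarith

/-- Hilbert space part. -/
theorem hilb {H : Type} [NormedAddCommGroup H] [InnerProductSpace ℝ H] [CompleteSpace H]
    (Q : Set H) (hQ : Convex ℝ Q) (m : ℕ) (u : ℕ → H) (hu : ∀ n, m ≤ n → u n ∈ Q) (φ : H)
    (l : Ultrafilter ℕ) (hl : (l : Filter ℕ) ≤ atTop)
    (hw : ∀ G, Tendsto (fun n => ⟪u n, G⟫_ℝ) l (𝓝 ⟪φ, G⟫_ℝ)) : φ ∈ closure Q := by
  have hne : (closure Q).Nonempty := ⟨u m, subset_closure (hu m le_rfl)⟩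
  obtain ⟨c, hc, hmin⟩ := exists_norm_eq_iInf_of_complete_convex hne
    isClosed_closure.isComplete hQ.closure φ
  have h1 := (norm_eq_iInf_iff_real_inner_le_zero hQ.closure hc).1 hmin
  have h2 : ∀ᶠ n in (l : Filter ℕ), ⟪u n, φ - c⟫_ℝ ≤ ⟪c, φ - c⟫_ℝ := by
    filter_upwards [hl (eventually_ge_atTop m)] with n hn
    have h3 := h1 (u n) (subset_closure (hu n hn))
    rw [real_inner_comm, inner_sub_left] at h3
    linarith
  have h3 : ⟪φ, φ - c⟫_ℝ ≤ ⟪c, φ - c⟫_ℝ := le_of_tendsto (hw (φ - c)) h2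
  have h4 : ⟪φ - c, φ - c⟫_ℝ ≤ 0 := by
    rw [inner_sub_left]
    linarith
  have h5 : φ - c = 0 := by
    exact inner_self_eq_zero.1 (le_antisymm h4 real_inner_self_nonneg)
  rw [sub_eq_zero.1 h5]
  exact hc

/-- The classes of continuous functions which distinguish `p` and `q` at most as much as the functions
`h ∘ f^[n]`, `n ≥ m`, do. -/
def Q {M : Type} [MetricSpace M] [CompactSpace M] [MeasurableSpace M] (μ : Measure M)
    (f : M → M) (h : C(M, ℝ)) (m : ℕ) : Set (Lp ℝ 2 μ) :=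
  {c | ∃ k : M → ℝ, Continuous k ∧ (∀ p, |k p| ≤ ‖h‖) ∧ ⇑c =ᵐ[μ] k ∧
    ∀ (ε : ℝ) (p q : M), 0 ≤ ε → (∀ n, m ≤ n → |h (f^[n] p) - h (f^[n] q)| ≤ ε) →
      |k p - k q| ≤ ε}

theorem Q_convex {M : Type} [MetricSpace M] [CompactSpace M] [MeasurableSpace M] (μ : Measure M)
    (f : M → M) (h : C(M, ℝ)) (m : ℕ) : Convex ℝ (Q μ f h m) := by
  rintro c ⟨k, hk, hkb, hck, hke⟩ c' ⟨k', hk', hkb', hck', hke'⟩ a b ha hb hab
  refine ⟨fun p => a * k p + b * k' p, by fun_prop, ?_, ?_, ?_⟩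
  · intro p
    have h1 : |a * k p + b * k' p| ≤ |a * k p| + |b * k' p| := abs_add_le _ _
    rw [abs_mul, abs_mul, abs_of_nonneg ha, abs_of_nonneg hb] at h1
    have h2 := mul_le_mul_of_nonneg_left (hkb p) ha
    have h3 := mul_le_mul_of_nonneg_left (hkb' p) hb
    have h4 : a * ‖h‖ + b * ‖h‖ = ‖h‖ := by rw [← add_mul, hab, one_mul]
    linarith
  · filter_upwards [Lp.coeFn_add (a • c) (b • c'), Lp.coeFn_smul a c, Lp.coeFn_smul b c', hck, hck']
      with p h1 h2 h3 h4 h5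
    rw [h1, Pi.add_apply, h2, h3, Pi.smul_apply, Pi.smul_apply, h4, h5, smul_eq_mul, smul_eq_mul]
  · intro ε p q hε hpq
    have h1 := hke ε p q hε hpq
    have h2 := hke' ε p q hε hpq
    have h3 : a * k p + b * k' p - (a * k q + b * k' q) = a * (k p - k q) + b * (k' p - k' q) := by
      ring
    show |a * k p + b * k' p - (a * k q + b * k' q)| ≤ ε
    rw [h3]
    have h4 : |a * (k p - k q) + b * (k' p - k' q)| ≤ |a * (k p - k q)| + |b * (k' p - k' q)| :=
      abs_add_le _ _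
    rw [abs_mul, abs_mul, abs_of_nonneg ha, abs_of_nonneg hb] at h4
    have h5 := mul_le_mul_of_nonneg_left h1 ha
    have h6 := mul_le_mul_of_nonneg_left h2 hb
    have h7 : a * ε + b * ε = ε := by rw [← add_mul, hab, one_mul]
    linarith

end IMzr

open IMzr in
theorem i_Mzr : Mzr := by
  intro M _ _ _ _ μ _ f hf h F hF φ l hl hw
  have hfc : Continuous (f : M → M) := f.continuous
  have hmem : ∀ m n : ℕ, m ≤ n →
      Pool.PSTow.pw (Pool.PSTow.ucmp f hf) n F ∈ Q μ (f : M → M) h m := by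
    intro m n hmn
    refine ⟨fun p => h ((f : M → M)^[n] p), h.continuous.comp (hfc.iterate n), ?_, ?_, ?_⟩
    · intro p
      have := h.norm_coe_le_norm ((f : M → M)^[n] p)
      rwa [Real.norm_eq_abs] at this
    · rw [Pool.PSTow.pw_ucmp]
      refine (Pool.PSTow.cmp_coe _ _ F).trans ?_
      exact (hf.iterate n).quasiMeasurePreserving.ae_eq_comp hF
    · intro ε p q _ hpq
      exact hpq n hmn
  have hcl : ∀ m : ℕ, φ ∈ closure (Q μ (f : M → M) h m) := fun m =>
    hilb _ (Q_convex μ _ h m) m (fun n => Pool.PSTow.pw (Pool.PSTow.ucmp f hf) n F) (hmem m) φ l hl hw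
  have hex : ∀ m : ℕ, ∃ c ∈ Q μ (f : M → M) h m, dist φ c < 1 / ((m : ℝ) + 1) := fun m =>
    Metric.mem_closure_iff.1 (hcl m) _ (by positivity)
  choose c hc hcd using hex
  have hct : Tendsto c atTop (𝓝 φ) := by
    rw [tendsto_iff_dist_tendsto_zero]
    refine squeeze_zero (fun m => dist_nonneg) (fun m => ?_) tendsto_one_div_add_atTop_nhds_zero_nat
    rw [dist_comm]
    exact (hcd m).le
  choose k hkc hkb hck hke using hc
  obtain ⟨ψ, hψ, hae⟩ := (tendstoInMeasure_of_tendsto_Lp hct).exists_seq_tendsto_ae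
  refine ⟨fun p => limsup (fun i => k (ψ i) p) atTop,
    Measurable.limsup fun i => (hkc (ψ i)).measurable, ?_, ?_⟩
  · intro p q hpq
    have hu : UniformContinuous h := CompactSpace.uniformContinuous_of_continuous h.continuous
    have h0 : Tendsto (fun i => k (ψ i) p - k (ψ i) q) atTop (𝓝 0) := by
      rw [Metric.tendsto_atTop]
      intro ε hε
      obtain ⟨δ, hδ, hh⟩ := Metric.uniformContinuous_iff.1 hu (ε / 2) (by positivity)
      obtain ⟨n0, hn0⟩ := (Metric.tendsto_atTop.1 hpq) δ hδ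
      refine ⟨n0, fun i hi => ?_⟩
      have hi' : n0 ≤ ψ i := hi.trans (hψ.id_le i)
      have h1 := hke (ψ i) (ε / 2) p q (by positivity) (fun n hn => by
        have h2 := hn0 n (hi'.trans hn)
        rw [Real.dist_eq, sub_zero, abs_of_nonneg dist_nonneg] at h2
        have h3 := hh h2
        rw [Real.dist_eq] at h3
        exact h3.le)
      rw [Real.dist_eq, sub_zero]
      linarith
    have h0' : Tendsto (fun i => k (ψ i) q - k (ψ i) p) atTop (𝓝 0) := by
      have := h0.neg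
      simpa using this
    exact le_antisymm (IMzr.le (fun i => hkb (ψ i) p) (fun i => hkb (ψ i) q) h0)
      (IMzr.le (fun i => hkb (ψ i) q) (fun i => hkb (ψ i) p) h0')
  · have hall : ∀ᵐ p ∂μ, ∀ n, (c n : Lp ℝ 2 μ) p = k n p := by
      rw [ae_all_iff]
      exact hck
    filter_upwards [hae, hall] with p h1 h2
    have h3 : Tendsto (fun i => k (ψ i) p) atTop (𝓝 (φ p)) := by
      refine h1.congr fun i => ?_
      exact h2 (ψ i)
    exact h3.limsup_eq.symm

end SF

end Pool.Agent.SKP
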