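import Pool.Agent.Work.MP_adbfe6_an.SF.StmtsB

/-!
# Surface fibres, item Ort: vectors orthogonal to the saturated classes tend weakly to zero
-/

set_option autoImplicit false

open Filter Topology MeasureTheory
open scoped ENNReal NNReal InnerProductSpace

namespace Pool.Agent.SKP

namespace SF

/-- weak limits along an ultrafilter -/
theorem Ort_lim {H : Type} [NormedAddCommGroup H] [InnerProductSpace ℝ H] [CompleteSpace H]
    (u : ℕ → H) (C : ℝ) (hu : ∀ n, ‖u n‖ ≤ C) (l : Ultrafilter ℕ) :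
    ∃ φ : H, ∀ G, Tendsto (fun n => ⟪u n, G⟫_ℝ) l (𝓝 ⟪φ, G⟫_ℝ) := by
  have h1 : ∀ G : H, ∃ a : ℝ, |a| ≤ C * ‖G‖ ∧ Tendsto (fun n => ⟪u n, G⟫_ℝ) l (𝓝 a) := by
    intro G
    have hmem : ∀ n, ⟪u n, G⟫_ℝ ∈ Set.Icc (-(C * ‖G‖)) (C * ‖G‖) := by
      intro n
      have h2 := (abs_real_inner_le_norm (u n) G).trans
        (mul_le_mul_of_nonneg_right (hu n) (norm_nonneg G))
      exact abs_le.1 h2
    obtain ⟨a, ha, hle⟩ := (isCompact_Icc (a := -(C * ‖G‖)) (b := C * ‖G‖)).ultrafilter_le_nhds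
      (l.map (fun n => ⟪u n, G⟫_ℝ)) (by
        rw [Filter.le_principal_iff]
        exact Ultrafilter.mem_map.2 (Filter.univ_mem' hmem))
    exact ⟨a, abs_le.2 ha, hle⟩
  choose L hL1 hL2 using h1
  have hadd : ∀ G G' : H, L (G + G') = L G + L G' := by
    intro G G'
    have h3 : Tendsto (fun n => ⟪u n, G + G'⟫_ℝ) l (𝓝 (L G + L G')) := by
      simp only [inner_add_right]
      exact (hL2 G).add (hL2 G')
    exact tendsto_nhds_unique (hL2 (G + G')) h3
  have hsmul : ∀ (c : ℝ) (G : H), L (c • G) = c * L G := by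
    intro c G
    have h3 : Tendsto (fun n => ⟪u n, c • G⟫_ℝ) l (𝓝 (c * L G)) := by
      simp only [inner_smul_right]
      exact (hL2 G).const_mul c
    exact tendsto_nhds_unique (hL2 (c • G)) h3
  let L' : H →ₗ[ℝ] ℝ :=
    { toFun := L
      map_add' := hadd
      map_smul' := fun c G => hsmul c G }
  let L'' : H →L[ℝ] ℝ := L'.mkContinuous C (fun G => by
    rw [Real.norm_eq_abs]
    exact hL1 G)
  refine ⟨(InnerProductSpace.toDual ℝ H).symm L'', fun G => ?_⟩
  rw [InnerProductSpace.toDual_symm_apply]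
  exact hL2 G

theorem i_Ort (h1 : Mzr) : Ort := by
  intro M _ _ _ _ μ _ f hf V hV F hF G
  -- invariance of `V`
  have hFAs : ∀ p q, FAs f p q → FAs f (f.symm p) (f.symm q) := by
    intro p q h
    unfold FAs at h ⊢
    rw [← tendsto_add_atTop_iff_nat 1]
    refine h.congr fun n => ?_
    rw [Function.iterate_succ_apply, Function.iterate_succ_apply, f.apply_symm_apply,
      f.apply_symm_apply]
  have hinv : ∀ K : Lp ℝ 2 μ, K ∈ V → (Pool.PSTow.ucmp f hf).symm K ∈ V := by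
    intro K hK
    obtain ⟨g, hg1, hg2, hg3⟩ := (hV K).1 hK
    refine (hV _).2 ⟨fun z => g (f.symm z), hg1.comp f.symm.continuous.measurable, ?_, ?_⟩
    · intro p q hpq
      exact hg2 _ _ (hFAs p q hpq)
    · rw [Pool.PSTow.ucmp_symm]
      have h3 := Pool.PSTow.cmp_coe f.symm (Pool.PSTow.homeo_symm_mp f hf) K
      have h4 := (Pool.PSTow.homeo_symm_mp f hf).quasiMeasurePreserving.ae_eq_comp hg3
      exact h3.trans h4
  have hinvn : ∀ (n : ℕ) (K : Lp ℝ 2 μ), K ∈ V →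
      Pool.PSTow.pw (Pool.PSTow.ucmp f hf).symm n K ∈ V := by
    intro n
    induction n with
    | zero => intro K hK; exact hK
    | succ n ih =>
      intro K hK
      rw [Pool.PSTow.pw_succ]
      exact hinv _ (ih K hK)
  rw [tendsto_iff_ultrafilter]
  intro l hl
  have hnorm : ∀ (K : Lp ℝ 2 μ) (n : ℕ), ‖Pool.PSTow.pw (Pool.PSTow.ucmp f hf) n K‖ ≤ ‖K‖ :=
    fun K n => ((Pool.PSTow.pw (Pool.PSTow.ucmp f hf) n).norm_map K).le
  obtain ⟨φ', hφ'⟩ := Ort_lim (fun n => Pool.PSTow.pw (Pool.PSTow.ucmp f hf) n F) ‖F‖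
    (hnorm F) l
  have horth : ∀ v ∈ V, ⟪φ', v⟫_ℝ = 0 := by
    intro v hv
    have h5 : ∀ n, ⟪Pool.PSTow.pw (Pool.PSTow.ucmp f hf) n F, v⟫_ℝ = 0 := by
      intro n
      rw [Pool.PSTow.pw_inner]
      exact Submodule.inner_left_of_mem_orthogonal (hinvn n v hv) hF
    have h6 := hφ' v
    simp only [h5] at h6
    exact (tendsto_nhds_unique h6 tendsto_const_nhds)
  have hsmall : ∀ δ : ℝ, 0 < δ → ‖φ'‖ ≤ δ := by
    intro δ hδ
    have hdense := ContinuousMap.toLp_denseRange (E := ℝ) (μ := μ) ℝ (p := 2)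
      (by simp : (2 : ℝ≥0∞) ≠ ∞)
    obtain ⟨h, hh⟩ := hdense.exists_dist_lt F hδ
    set F' : Lp ℝ 2 μ := ContinuousMap.toLp (E := ℝ) 2 μ ℝ h with hF'
    obtain ⟨φ, hφ⟩ := Ort_lim (fun n => Pool.PSTow.pw (Pool.PSTow.ucmp f hf) n F') ‖F'‖
      (hnorm F') l
    have hφV : φ ∈ V := (hV φ).2 (h1 M μ f hf h F' (ContinuousMap.coeFn_toLp μ h) φ l hl hφ)
    have hdiff : ‖φ' - φ‖ ≤ δ := by
      have h7 : Tendsto (fun n => ⟪Pool.PSTow.pw (Pool.PSTow.ucmp f hf) n (F - F'), φ' - φ⟫_ℝ) l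
          (𝓝 ⟪φ' - φ, φ' - φ⟫_ℝ) := by
        have h8 := (hφ' (φ' - φ)).sub (hφ (φ' - φ))
        rw [← inner_sub_left] at h8
        refine h8.congr fun n => ?_
        rw [map_sub, inner_sub_left]
      have h9 : ⟪φ' - φ, φ' - φ⟫_ℝ ≤ δ * ‖φ' - φ‖ := by
        refine le_of_tendsto h7 (Filter.Eventually.of_forall fun n => ?_)
        refine (real_inner_le_norm _ _).trans ?_
        refine mul_le_mul_of_nonneg_right ?_ (norm_nonneg _)
        refine (hnorm (F - F') n).trans ?_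
        rw [← dist_eq_norm]
        exact hh.le
      rw [real_inner_self_eq_norm_sq, sq] at h9
      rcases (norm_nonneg (φ' - φ)).eq_or_lt with h0 | h0
      · rw [← h0]; exact hδ.le
      · exact le_of_mul_le_mul_right h9 h0
    have h10 : ‖φ'‖ ^ 2 ≤ ‖φ'‖ * δ := by
      rw [← real_inner_self_eq_norm_sq]
      have h11 : ⟪φ', φ'⟫_ℝ = ⟪φ', φ' - φ⟫_ℝ := by
        rw [inner_sub_right, horth φ hφV, sub_zero]
      rw [h11]
      exact (real_inner_le_norm _ _).trans (mul_le_mul_of_nonneg_left hdiff (norm_nonneg _))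
    rcases (norm_nonneg φ').eq_or_lt with h0 | h0
    · rw [← h0]; exact hδ.le
    · rw [sq] at h10
      exact le_of_mul_le_mul_left h10 h0
  have hzero : φ' = 0 := by
    rw [← norm_le_zero_iff]
    exact le_of_forall_pos_le_add fun δ hδ => by simpa using hsmall δ hδ
  have h12 := hφ' G
  rw [hzero, inner_zero_left] at h12
  exact h12

end SF

end Pool.Agent.SKP
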