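import Pool.Agent.Work.MP_adbfe6_an.SF.Stmts

set_option autoImplicit false

open Filter Topology MeasureTheory
open scoped ENNReal NNReal

namespace Pool.Agent.SKP

namespace SF

private lemma sat_meas {M : Type} [MetricSpace M] [CompactSpace M] [MeasurableSpace M] [BorelSpace M]
    (f : M → M) (hf : Continuous f) (h : C(M, ℝ)) (n : ℕ) :
    Measurable fun p => birkhoffAverage ℝ f (⇑h) n p := by
  apply Continuous.measurable
  unfold birkhoffAverage birkhoffSum
  have h0 : Continuous fun p : M => ∑ k ∈ Finset.range n, h (f^[k] p) :=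
    continuous_finsetSum _ fun k _ => h.continuous.comp (hf.iterate k)
  have h1 : Continuous fun p : M => ((n : ℝ)⁻¹) * ∑ k ∈ Finset.range n, h (f^[k] p) :=
    continuous_const.mul h0
  exact h1

theorem i_Sat (h1 : Avg) (h2 : Lsp) : Sat := by
  intro M _ _ _ _ μ _ f hf hfc S hS hinv
  have hK : ∀ j : ℕ, ∃ h : C(M, ℝ),
      eLpNorm (fun p => h p - S.indicator (fun _ => (1 : ℝ)) p) 2 μ ≤ ((j : ℝ≥0∞) + 1)⁻¹ := by
    intro j
    have hmem : MemLp (S.indicator (fun _ => (1 : ℝ))) 2 μ :=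
      (memLp_const (1 : ℝ)).indicator hS
    have hε : ((j : ℝ≥0∞) + 1)⁻¹ ≠ 0 := by
      simp [ENNReal.inv_eq_zero]
    obtain ⟨g, hg, _⟩ := hmem.exists_boundedContinuous_eLpNorm_sub_le (by norm_num) hε
    refine ⟨g.toContinuousMap, ?_⟩
    rw [eLpNorm_sub_comm] at hg
    exact hg
  choose K hK using hK
  choose G φ hG hφ hlim hn using fun j => h1 M μ f hf S hS hinv (K j)
  set L : ℕ → M → ℝ := fun j p => limsup (fun i => birkhoffAverage ℝ f (⇑(K j)) (φ j i) p) atTop
    with hL
  have hLm : ∀ j, Measurable (L j) := fun j => Measurable.limsup fun i => sat_meas f hfc (K j) (φ j i)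
  have hLG : ∀ j, L j =ᵐ[μ] G j := by
    intro j
    filter_upwards [hlim j] with p hp
    exact hp.limsup_eq
  have hLn : ∀ j : ℕ, eLpNorm (L j - S.indicator (fun _ => (1 : ℝ))) 2 μ ≤ ((j : ℝ≥0∞) + 1)⁻¹ := by
    intro j
    refine le_trans (le_of_eq (eLpNorm_congr_ae ?_)) (le_trans (hn j) (hK j))
    filter_upwards [hLG j] with p hp
    simp only [Pi.sub_apply, hp]
  have ht : Tendsto (fun j : ℕ => eLpNorm (L j - S.indicator (fun _ => (1 : ℝ))) 2 μ) atTop (𝓝 0) := by
    refine tendsto_of_tendsto_of_tendsto_of_le_of_le tendsto_const_nhds ?_ (fun _ => zero_le) hLn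
    have h3 : Tendsto (fun j : ℕ => ((j : ℝ≥0∞) + 1)) atTop (𝓝 ∞) := by
      refine tendsto_nhds_top_mono ENNReal.tendsto_nat_nhds_top ?_
      exact Eventually.of_forall fun j => le_self_add
    have := tendsto_inv_iff.mpr h3
    simpa using this
  have htm := tendstoInMeasure_of_tendsto_eLpNorm (p := 2) (μ := μ) (by norm_num)
    (fun j => (hLm j).aestronglyMeasurable)
    ((measurable_const.indicator hS).aestronglyMeasurable) ht
  obtain ⟨ψ, _, hψ⟩ := htm.exists_seq_tendsto_ae
  refine ⟨{p | (1 / 2 : ℝ) < limsup (fun i => L (ψ i) p) atTop}, ?_, ?_, ?_⟩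
  · exact measurableSet_lt measurable_const (Measurable.limsup fun i => hLm (ψ i))
  · filter_upwards [hψ] with p hp
    have h4 := hp.limsup_eq
    apply propext
    show (1 / 2 : ℝ) < limsup (fun i => L (ψ i) p) atTop ↔ p ∈ S
    rw [h4]
    by_cases hpS : p ∈ S
    · simp [hpS]; norm_num
    · simp [hpS]
  · intro p q hpq
    have h5 : ∀ j, L j p = L j q := fun j => h2 M f (K j) (φ j) (hφ j) p q hpq
    show (1 / 2 : ℝ) < limsup (fun i => L (ψ i) p) atTop ↔
      (1 / 2 : ℝ) < limsup (fun i => L (ψ i) q) atTop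
    simp only [h5]

end SF

end Pool.Agent.SKP
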