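import Pool.Agent.Work.MP_adbfe6_an.SF.StmtsB

/-!
# Surface fibres, part B: slices have equal measure (item Slc)
-/

set_option autoImplicit false
set_option linter.unusedSectionVars false

open Filter Topology MeasureTheory
open scoped ENNReal NNReal

namespace Pool.Agent.SKP

namespace SF

theorem i_Slc : Slc := by
  intro B Ws Wu N _ _ _ _ _ _ D _ _ _ _ _ _ _ _ _ _ _ _ ν _ lam _ _ hg S hS hEs hEu
  set E : B × N → ℝ := S.indicator (fun _ => (1 : ℝ)) with hEdef
  have hE : Measurable E := measurable_const.indicator hS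
  have hE0 : ∀ p, 0 ≤ E p := fun p => Set.indicator_nonneg (fun _ _ => zero_le_one) p
  have hE1 : ∀ p, E p ≤ 1 := fun p => Set.indicator_le_self' (fun _ _ => zero_le_one) p
  let m : Measure (Ws × Wu) := Measure.addHaar
  obtain ⟨ρ, hρ, hρc, hρ0, hρ1⟩ := Two.exists_moll (Ws := Ws) (Wu := Wu) m
  have hem : ∀ x, Measurable (fun z => D.bun.e m ρ E x z) := fun x =>
    (D.bun.e_meas m hρ hE).comp (measurable_const.prodMk measurable_id)
  let X : B → Set N := fun x => {z | 1 / 2 < D.bun.e m ρ E x z}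
  have hXm : ∀ x, MeasurableSet (X x) := fun x => measurableSet_lt measurable_const (hem x)
  have hde := D.dens_eq m hg hE hEs hEu hρ hρc hρ1
  have hXS : ∀ᵐ p ∂(lam.prod ν), p.2 ∈ X p.1 ↔ p ∈ S := by
    filter_upwards [hde] with p hp
    show 1 / 2 < D.bun.e m ρ E p.1 p.2 ↔ p ∈ S
    rw [hp]
    show 1 / 2 < S.indicator (fun _ => (1 : ℝ)) p ↔ p ∈ S
    by_cases hpS : p ∈ S
    · rw [Set.indicator_of_mem hpS]
      exact ⟨fun _ => hpS, fun _ => by norm_num⟩
    · rw [Set.indicator_of_notMem hpS]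
      exact ⟨fun h => absurd h (by norm_num), fun h => absurd h hpS⟩
  have hXS2 : ∀ᵐ x ∂lam, ∀ᵐ z ∂ν, (z ∈ X x ↔ (x, z) ∈ S) := Measure.ae_ae_of_ae_prod hXS
  have hinv : ∀ l : List (Mv Ws Wu), (∀ a ∈ l, a.leaf) → ∀ x,
      D.hol l x ⁻¹' X (D.brun l x) =ᵐ[ν] X x := by
    intro l hl x
    filter_upwards [D.dens_run_leaf m hg hE hE0 hE1 hEs hEu hρ hρc hρ1 hρ0 l hl x] with z hz
    apply propext
    show 1 / 2 < D.bun.e m ρ E (D.brun l x) (D.hol l x z) ↔ 1 / 2 < D.bun.e m ρ E x z
    rw [hz]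
  have hconst : ∀ x y, ν (X x) = ν (X y) := by
    intro x y
    obtain ⟨v, w, hvw⟩ := D.surj (y - x)
    have hb : D.brun [Mv.s v, Mv.u w] x = y := by
      show x + D.s.j v + D.u.j w = y
      rw [add_assoc, hvw, add_sub_cancel]
    have h3 := hinv [Mv.s v, Mv.u w]
      (by
        intro a ha
        simp only [List.mem_cons, List.not_mem_nil, or_false] at ha
        rcases ha with rfl | rfl
        · trivial
        · trivial) x
    rw [hb] at h3
    rw [← measure_congr h3]
    exact (D.hol_mp hg [Mv.s v, Mv.u w] x).measure_preimage (hXm y).nullMeasurableSet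
  have h1 : ∀ᵐ x ∂lam, ν (Prod.mk x ⁻¹' S) = ν (X 0) := by
    filter_upwards [hXS2] with x hx
    have h4 : X x =ᵐ[ν] Prod.mk x ⁻¹' S := by
      filter_upwards [hx] with z hz
      exact propext hz
    rw [← measure_congr h4, hconst x 0]
  have h2 : (lam.prod ν) S = ν (X 0) := by
    rw [Measure.prod_apply hS, lintegral_congr_ae h1, lintegral_const, measure_univ, mul_one]
  filter_upwards [h1] with x hx
  rw [hx, h2]

end SF

end Pool.Agent.SKP
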