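import Pool.Agent.Work.MP_adbfe6_an.SF.StmtsB

/-!
# Small locally constant sets which cover almost everything
-/

set_option autoImplicit false

open Filter Topology MeasureTheory
open scoped ENNReal NNReal InnerProductSpace

namespace Pool.Agent.SKP.SF

theorem i_Sml (h : Dic) : Sml := by
  intro N _ _ _ _ r hr
  obtain ⟨t, -, htf, ht⟩ := (isCompact_univ (X := N)).finite_cover_balls (half_pos hr)
  refine ⟨htf.toFinset.card, ?_⟩
  intro ν _ Y P δ hloc hδ hcov
  have key : ∀ x : N, ν (Y ∩ Metric.ball x (r / 2)) ≤ δ := by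
    intro x
    by_cases hc : ∃ i, ν ((Y ∩ Metric.ball x (r / 2)) \ P i) = 0
    · obtain ⟨i, hi⟩ := hc
      calc ν (Y ∩ Metric.ball x (r / 2))
          ≤ ν (P i ∪ (Y ∩ Metric.ball x (r / 2)) \ P i) := by
            refine measure_mono fun y hy => ?_
            by_cases hy' : y ∈ P i
            · exact Or.inl hy'
            · exact Or.inr ⟨hy, hy'⟩
        _ ≤ ν (P i) + ν ((Y ∩ Metric.ball x (r / 2)) \ P i) := measure_union_le _ _
        _ = ν (P i) := by rw [hi, add_zero]
        _ ≤ δ := hδ i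
    · have hz : ∀ i, ν (P i ∩ (Y ∩ Metric.ball x (r / 2))) = 0 := by
        intro i
        rcases h N ν (P i) (Y ∩ Metric.ball x (r / 2)) (by
          filter_upwards [hloc i] with q hq h1 h2
          refine hq h1.1 h2.1 ?_
          have h3 : dist q.1 x < r / 2 := h1.2
          have h4 : dist q.2 x < r / 2 := h2.2
          have h5 := dist_triangle_right q.1 q.2 x
          linarith) with h6 | h6
        · exact h6
        · exact absurd ⟨i, h6⟩ hc
      have h7 : ν (Y ∩ Metric.ball x (r / 2)) = 0 := by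
        refine measure_mono_null (t := (⋃ i, P i)ᶜ ∪ ⋃ i, P i ∩ (Y ∩ Metric.ball x (r / 2))) ?_
          (measure_union_null hcov (measure_iUnion_null hz))
        intro y hy
        by_cases hy' : y ∈ ⋃ i, P i
        · obtain ⟨i, hi⟩ := Set.mem_iUnion.1 hy'
          exact Or.inr (Set.mem_iUnion.2 ⟨i, hi, hy⟩)
        · exact Or.inl hy'
      rw [h7]
      exact bot_le
  calc ν Y ≤ ν (⋃ x ∈ htf.toFinset, Y ∩ Metric.ball x (r / 2)) := by
        refine measure_mono fun y hy => ?_
        obtain ⟨x, hx, hxy⟩ := Set.mem_iUnion₂.1 (ht (Set.mem_univ y))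
        exact Set.mem_iUnion₂.2 ⟨x, htf.mem_toFinset.2 hx, hy, hxy⟩
    _ ≤ ∑ x ∈ htf.toFinset, ν (Y ∩ Metric.ball x (r / 2)) := measure_biUnion_finset_le _ _
    _ ≤ ∑ _x ∈ htf.toFinset, δ := Finset.sum_le_sum fun x _ => key x
    _ = (htf.toFinset.card : ℝ≥0∞) * δ := by rw [Finset.sum_const, nsmul_eq_mul]

end Pool.Agent.SKP.SF
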