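import Pool.Agent.Work.MP_adbfe6_an.SF.StmtsB

/-!
# Surface fibres, part B, item Tvi: bi-saturated sets are invariant under the holonomies
-/

set_option autoImplicit false
set_option linter.unusedSectionVars false

open Filter Topology MeasureTheory
open scoped ENNReal NNReal

namespace Pool.Agent.SKP

namespace SF

namespace ITvi

variable {B W N : Type} [NormedAddCommGroup B] [CompactSpace B] [NormedAddCommGroup W]
  [MetricSpace N] [CompactSpace N]

theorem iter (D : Side B W N) (v : W) (p : B × N) (n : ℕ) :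
    D.F^[n] (D.T v p) = D.T (D.L^[n] v) (D.F^[n] p) := by
  induction n with
  | zero => rfl
  | succ n ih =>
    rw [Function.iterate_succ_apply', Function.iterate_succ_apply', Function.iterate_succ_apply',
      ih, D.F_T]

theorem fas (D : Side B W N) (v : W) (p : B × N) : FAs D.F (D.T v p) p := by
  have h2 := ContinuousMap.tendsto_iff_tendstoUniformly.1 (D.Tc_tendsto v)
  rw [Metric.tendstoUniformly_iff] at h2
  unfold FAs
  rw [Metric.tendsto_atTop']
  intro ε hε
  obtain ⟨n₀, hn₀⟩ := Filter.eventually_atTop.1 (h2 ε hε)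
  refine ⟨n₀, fun n hn => ?_⟩
  have h3 := hn₀ n hn.le (D.F^[n] p)
  rw [iter, Real.dist_0_eq_abs, abs_of_nonneg dist_nonneg, dist_comm]
  exact h3

variable [MeasurableSpace B] [BorelSpace B] [MeasurableSpace N] [BorelSpace N]
  [NormedSpace ℝ W] [FiniteDimensional ℝ W]
  {ν : Measure N} [IsProbabilityMeasure ν] {lam : Measure B}
  [IsProbabilityMeasure lam] [lam.IsAddLeftInvariant]

theorem inv (D : Side B W N) (hg : ∀ x, MeasurePreserving (D.g x) ν ν) {P S : Set (B × N)}
    (hS : Sset D.F S) (hSP : S =ᵐ[lam.prod ν] P) (v : W) :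
    P.indicator (fun _ => (1 : ℝ)) ∘ D.T v =ᵐ[lam.prod ν] P.indicator (fun _ => (1 : ℝ)) := by
  have hT := (D.T_mp (lam := lam) hg v).quasiMeasurePreserving.ae_eq_comp hSP
  filter_upwards [hSP, hT] with p h1 h2
  have h1' : (p ∈ S) = (p ∈ P) := h1
  have h2' : (D.T v p ∈ S) = (D.T v p ∈ P) := h2
  have h3 : D.T v p ∈ P ↔ p ∈ P := by
    rw [← h1', ← h2']
    exact hS.2 _ _ (fas D v p)
  by_cases hp : p ∈ P
  · simp [hp, h3.2 hp]
  · simp [hp, mt h3.1 hp]

end ITvi

open ITvi in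
theorem i_Tvi : Tvi := by
  intro B Ws Wu N _ _ _ _ _ _ D _ _ _ _ _ _ _ _ ν _ lam _ _ hg P hP
  obtain ⟨_, ⟨S, hS, hSP⟩, S', hS', hSP'⟩ := hP
  exact ⟨fun v => inv D.s hg hS hSP v, fun w => inv D.u (D.u_g_mp hg) hS' hSP' w⟩

end SF

end Pool.Agent.SKP
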