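import Pool.Agent.Work.MP_adbfe6_an.SF.StmtsB

/-!
# MP_adbfe6_an, block SF, item Vcl (helper60): saturated classes form a closed subspace
-/

set_option autoImplicit false

open Filter Topology MeasureTheory
open scoped ENNReal NNReal InnerProductSpace

namespace Pool.Agent.SKP

namespace SF

theorem i_Vcl : Vcl := by
  intro M _ _ _ _ μ _ f
  refine ⟨{ carrier := {F | IsV μ f F}, zero_mem' := ?_, add_mem' := ?_, smul_mem' := ?_ },
    fun F => Iff.rfl, ?_⟩
  · rintro F G ⟨g, hg, hgc, hFg⟩ ⟨k, hk, hkc, hGk⟩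
    refine ⟨fun p => g p + k p, hg.add hk, fun p q h => by simp only [hgc p q h, hkc p q h], ?_⟩
    filter_upwards [Lp.coeFn_add F G, hFg, hGk] with p h1 h2 h3
    rw [h1, Pi.add_apply, h2, h3]
  · refine ⟨fun _ => 0, measurable_const, fun _ _ _ => rfl, ?_⟩
    filter_upwards [Lp.coeFn_zero ℝ 2 μ] with p h1
    rw [h1, Pi.zero_apply]
  · rintro c F ⟨g, hg, hgc, hFg⟩
    refine ⟨fun p => c * g p, hg.const_mul c, fun p q h => by simp only [hgc p q h], ?_⟩
    filter_upwards [Lp.coeFn_smul c F, hFg] with p h1 h2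
    rw [h1, Pi.smul_apply, h2, smul_eq_mul]
  · refine IsSeqClosed.isClosed ?_
    intro F F₀ hF hlim
    have hF' : ∀ i, IsV μ f (F i) := hF
    choose g hg hgc hFg using hF'
    have h1 := tendstoInMeasure_of_tendsto_Lp hlim
    obtain ⟨φ, -, hφ⟩ := h1.exists_seq_tendsto_ae
    refine ⟨fun p => limsup (fun i => g (φ i) p) atTop, Measurable.limsup fun i => hg (φ i),
      fun p q h => ?_, ?_⟩
    · have h2 : (fun i => g (φ i) p) = fun i => g (φ i) q := funext fun i => hgc (φ i) p q h
      simp only [h2]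
    · have h3 : ∀ᵐ p ∂μ, ∀ i, F i p = g i p := ae_all_iff.2 hFg
      filter_upwards [hφ, h3] with p h4 h5
      have h6 : Tendsto (fun i => g (φ i) p) atTop (𝓝 (F₀ p)) := by
        refine h4.congr fun i => ?_
        rw [h5]
      exact h6.limsup_eq.symm

end SF

end Pool.Agent.SKP
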