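import Pool.Agent.Work.MP_adbfe6_an.SF.Stmts

/-!
# Surface fibres: the main argument
-/

set_option autoImplicit false

open Filter Topology MeasureTheory
open scoped ENNReal NNReal

namespace Pool.Agent.SKP

namespace SF

/-- a preconnected set which meets the interior of a closed set `R` and misses its frontier lies in
`R` -/
theorem top {N : Type} [TopologicalSpace N] {R K : Set N} (hR : IsClosed R) (hK : IsPreconnected K)
    (hKf : Disjoint K (frontier R)) {p : N} (hp : p ∈ K) (hpR : p ∈ interior R) : K ⊆ R := by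
  have h1 : K ⊆ interior R ∪ Rᶜ := by
    intro q hq
    by_cases h : q ∈ interior R
    · exact Or.inl h
    · right
      intro hqR
      refine Set.disjoint_left.1 hKf hq ?_
      rw [hR.frontier_eq]
      exact ⟨hqR, h⟩
  have h2 : K ⊆ interior R := hK.subset_left_of_subset_union isOpen_interior hR.isOpen_compl
    (Set.disjoint_left.2 fun q hq hq' => hq' (interior_subset hq)) h1 ⟨p, hp, hpR⟩
  exact h2.trans interior_subset

section

variable {d : ℕ} {N : Type} [MetricSpace N] [CompactSpace N] [MeasurableSpace N] [BorelSpace N]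
  {ν : Measure N} {A : HypAut d} {D : Fibres A N} {Ω : Set (Tor d × N)}
  {Wu Ws : Tor d × N → Set N}

theorem iter_mem {S : Set (Tor d × N)} (h : ∀ p, skew A.M D.g p ∈ S ↔ p ∈ S) (n : ℕ)
    (p : Tor d × N) : (skew A.M D.g)^[n] p ∈ S ↔ p ∈ S := by
  induction n with
  | zero => rfl
  | succ n ih => rw [Function.iterate_succ_apply', h, ih]

theorem Gi_mp (hg : ∀ x, MeasurePreserving (D.g x) ν ν) (n : ℕ) (x : Tor d) :
    MeasurePreserving (Gi (matAct A.M) D.g n x) ν ν := by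
  induction n with
  | zero => exact MeasurePreserving.id ν
  | succ n ih => exact (hg _).comp ih

theorem eqv_u (hW : PesinFibres A D.g ν Ω Wu Ws) (n : ℕ) {p : Tor d × N} (hp : p ∈ Ω) :
    (Gi (matAct A.M) D.g n p.1) '' Wu p = Wu ((skew A.M D.g)^[n] p) := by
  induction n with
  | zero =>
    show (id : N → N) '' Wu p = Wu p
    rw [Set.image_id]
  | succ n ih =>
    have h1 : (skew A.M D.g)^[n] p ∈ Ω := (iter_mem hW.inv n p).2 hp
    rw [Function.iterate_succ_apply', ← hW.map_u _ h1, ← ih, Set.image_image]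
    have h2 : ((skew A.M D.g)^[n] p).1 = (matAct A.M)^[n] p.1 := by
      have := D.skew_iter n p.1 p.2
      exact congrArg Prod.fst this
    rw [h2]
    rfl

theorem eqv_s (hW : PesinFibres A D.g ν Ω Wu Ws) (n : ℕ) {p : Tor d × N} (hp : p ∈ Ω) :
    (Gi (matAct A.M) D.g n p.1) '' Ws p = Ws ((skew A.M D.g)^[n] p) := by
  induction n with
  | zero =>
    show (id : N → N) '' Ws p = Ws p
    rw [Set.image_id]
  | succ n ih =>
    have h1 : (skew A.M D.g)^[n] p ∈ Ω := (iter_mem hW.inv n p).2 hp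
    rw [Function.iterate_succ_apply', ← hW.map_s _ h1, ← ih, Set.image_image]
    have h2 : ((skew A.M D.g)^[n] p).1 = (matAct A.M)^[n] p.1 := by
      have := D.skew_iter n p.1 p.2
      exact congrArg Prod.fst this
    rw [h2]
    rfl

/-- sets `Wu` of points separated by a backward saturated set are disjoint -/
theorem disj_u (hW : PesinFibres A D.g ν Ω Wu Ws) {S : Set (Tor d × N)}
    (hS : ∀ p q, Tendsto (fun n : ℕ => dist ((skewInv A.Mi D.g)^[n] p)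
      ((skewInv A.Mi D.g)^[n] q)) atTop (𝓝 0) → (p ∈ S ↔ q ∈ S)) {x : Tor d} {y z : N}
    (hy : (x, y) ∈ Ω) (hz : (x, z) ∈ Ω) (hyS : (x, y) ∉ S) (hzS : (x, z) ∈ S) :
    Disjoint (Wu (x, y)) (Wu (x, z)) := by
  rw [Set.disjoint_left]
  intro w hw hw'
  have h1 := hS _ _ (hW.asym_u _ hy w hw)
  have h2 := hS _ _ (hW.asym_u _ hz w hw')
  exact hyS (h1.2 (h2.1 hzS))

theorem disj_s (hW : PesinFibres A D.g ν Ω Wu Ws) {S : Set (Tor d × N)}
    (hS : ∀ p q, Tendsto (fun n : ℕ => dist ((skew A.M D.g)^[n] p)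
      ((skew A.M D.g)^[n] q)) atTop (𝓝 0) → (p ∈ S ↔ q ∈ S)) {x : Tor d} {y z : N}
    (hy : (x, y) ∈ Ω) (hz : (x, z) ∈ Ω) (hyS : (x, y) ∉ S) (hzS : (x, z) ∈ S) :
    Disjoint (Ws (x, y)) (Ws (x, z)) := by
  rw [Set.disjoint_left]
  intro w hw hw'
  have h1 := hS _ _ (hW.asym_s _ hy w hw)
  have h2 := hS _ _ (hW.asym_s _ hz w hw')
  exact hyS (h1.2 (h2.1 hzS))

end

theorem ae_swap {N : Type} [MeasurableSpace N] {ν : Measure N} [SFinite ν] {P : N × N → Prop}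
    (h : ∀ᵐ q ∂(ν.prod ν), P q) : ∀ᵐ y ∂ν, ∀ᵐ z ∂ν, P (z, y) := by
  have h1 : ∀ᵐ q ∂(ν.prod ν), P q.swap :=
    (Measure.measurePreserving_swap (μ := ν) (ν := ν)).quasiMeasurePreserving.ae h
  exact Measure.ae_ae_of_ae_prod h1

theorem main (h1 : Sat) (h2 : Ful) (h3 : Blk) {d : ℕ} {N : Type} [MetricSpace N] [CompactSpace N]
    [MeasurableSpace N] [BorelSpace N] (ν : Measure N) [IsProbabilityMeasure ν]
    [ν.IsOpenPosMeasure] (A : HypAut d) (D : Fibres A N)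
    (hg : ∀ x, MeasurePreserving (D.g x) ν ν) (hacc : EssAccessible A D.g (volume.prod ν))
    {Ω : Set (Tor d × N)} {Wu Ws : Tor d × N → Set N} (hW : PesinFibres A D.g ν Ω Wu Ws)
    {S : Set (Tor d × N)} (hS : MeasurableSet S) (hSΩ : S ⊆ Ω)
    (hSi : ∀ p, skew A.M D.g p ∈ S ↔ p ∈ S) :
    (volume.prod ν) S = 0 ∨ (volume.prod ν) (Ω \ S) = 0 := by
  by_contra hcon
  push Not at hcon
  obtain ⟨hS0, hS'0⟩ := hcon
  set μ : Measure (Tor d × N) := (volume : Measure (Tor d)).prod ν with hμ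
  have hA : MeasurePreserving (matAct A.M : Tor d → Tor d) volume volume := matAct_mp A.mul_inv
  have hF : MeasurePreserving (skew A.M D.g) μ μ := D.two.s.F_mp hg hA
  have hFi : MeasurePreserving (skewInv A.Mi D.g) μ μ :=
    D.two.u.F_mp (D.two.u_g_mp hg) (D.two.u_A_mp hA)
  have hFc : Continuous (skew A.M D.g) := D.two.s.F_cont
  have hFic : Continuous (skewInv A.Mi D.g) := D.two.u.F_cont
  have hE : D.two.EssAcc volume ν := essAcc_of D hacc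
  have hSpre : skew A.M D.g ⁻¹' S = S := Set.ext fun p => hSi p
  have hSprei : skewInv A.Mi D.g ⁻¹' S = S := by
    ext p
    have h := hSi (skewInv A.Mi D.g p)
    have h' : skew A.M D.g (skewInv A.Mi D.g p) = p := D.two.su_F p
    rw [h'] at h
    exact h.symm
  obtain ⟨Sf, hSfm, hSfe, hSf⟩ := h1 _ μ _ hF hFc S hS (by rw [hSpre])
  obtain ⟨Sb, hSbm, hSbe, hSb⟩ := h1 _ μ _ hFi hFic S hS (by rw [hSprei])
  -- the block
  obtain ⟨Λ, hΛΩ, hΛm, hΛε, r, hr, hΛ⟩ := hW.block (μ (Ω \ S)) (pos_iff_ne_zero.2 hS'0)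
  set T : Set (Tor d × N) := (Ω \ S) ∩ Λ with hT
  have hTm : MeasurableSet T := (hW.meas.diff hS).inter hΛm
  have hTpos : 0 < μ T := by
    rw [pos_iff_ne_zero]
    intro h0
    have h5 : μ (Ω \ S) ≤ μ (Ω \ Λ) + μ T := by
      refine (measure_mono ?_).trans (measure_union_le _ _)
      intro p hp
      by_cases h : p ∈ Λ
      · exact Or.inr ⟨hp, h⟩
      · exact Or.inl ⟨hp.1, h⟩
    rw [h0, add_zero] at h5
    exact absurd hΛε (not_lt.2 h5)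
  obtain ⟨T', hT'T, hT'm, hT'pos, c, hc, hcT⟩ := h3 _ _ volume ν T hTm hTpos r hr
  -- the points which reach `T'`
  set E : Set (Tor d × N) := ⋃ n : ℕ, (skew A.M D.g)^[n] ⁻¹' T' with hEdef
  have hEm : MeasurableSet E := MeasurableSet.iUnion fun n => (hFc.iterate n).measurable hT'm
  have hEpos : 0 < μ E := by
    refine lt_of_lt_of_le hT'pos (measure_mono ?_)
    intro p hp
    exact Set.mem_iUnion.2 ⟨0, hp⟩
  have hEsub : skew A.M D.g ⁻¹' E ⊆ E := by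
    intro p hp
    obtain ⟨n, hn⟩ := Set.mem_iUnion.1 hp
    exact Set.mem_iUnion.2 ⟨n + 1, by
      show (skew A.M D.g)^[n + 1] p ∈ T'
      rw [Function.iterate_succ_apply]
      exact hn⟩
  have hEi : skew A.M D.g ⁻¹' E =ᵐ[μ] E := by
    refine ae_eq_of_subset_of_measure_ge hEsub ?_ (hF.measurable hEm).nullMeasurableSet
      (measure_ne_top _ _)
    rw [hF.measure_preimage hEm.nullMeasurableSet]
  have a1 := h2 _ _ _ _ D.two ν volume hg hA hE E hEm hEi hEpos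
  have a2 := h2 _ _ _ _ D.two ν volume hg hA hE S hS
    (by
      have : D.two.s.F ⁻¹' S = S := hSpre
      rw [this]) (pos_iff_ne_zero.2 hS0)
  have a3 := hW.ac Sbᶜ Sf hSbm.compl hSfm
    (by
      intro p hp z hz hzS
      exact hp.1 ((hSb _ _ (hW.asym_u p hp.2 z hz)).2 hzS))
    (by
      intro p hp z hz
      exact (hSf _ _ (hW.asym_s p hp.2 z hz)).1 hp.1)
    (by
      have h5 : (Sbᶜ ∩ Sf : Set (Tor d × N)) =ᵐ[μ] (Sᶜ ∩ S : Set (Tor d × N)) :=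
        hSbe.compl.inter hSfe
      rw [measure_congr h5, Set.compl_inter_self, measure_empty])
  have a4 := hW.ac Sb Sfᶜ hSbm hSfm.compl
    (by
      intro p hp z hz
      exact (hSb _ _ (hW.asym_u p hp.2 z hz)).1 hp.1)
    (by
      intro p hp z hz hzS
      exact hp.1 ((hSf _ _ (hW.asym_s p hp.2 z hz)).2 hzS))
    (by
      have h5 : (Sb ∩ Sfᶜ : Set (Tor d × N)) =ᵐ[μ] (S ∩ Sᶜ : Set (Tor d × N)) :=
        hSbe.inter hSfe.compl
      rw [measure_congr h5, Set.inter_compl_self, measure_empty])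
  have a5 : ∀ᵐ x ∂(volume : Measure (Tor d)), ∀ᵐ y ∂ν, ((x, y) ∈ Sf ↔ (x, y) ∈ S) :=
    Measure.ae_ae_of_ae_prod (hSfe.mono fun p hp => Iff.of_eq hp)
  have a6 : ∀ᵐ x ∂(volume : Measure (Tor d)), ∀ᵐ y ∂ν, ((x, y) ∈ Sb ↔ (x, y) ∈ S) :=
    Measure.ae_ae_of_ae_prod (hSbe.mono fun p hp => Iff.of_eq hp)
  have a7 := hW.rect S hSΩ hS
  obtain ⟨x, b1, b2, b3, b4, b5, b6, b7⟩ :=
    (a1.and (a2.and (a3.and (a4.and (a5.and (a6.and a7)))))).exists
  have : Nonempty N := nonempty_of_isProbabilityMeasure ν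
  have c2 : 0 < ν (Prod.mk x ⁻¹' S) := by
    have := b2 Set.univ isOpen_univ Set.univ_nonempty
    rwa [Set.inter_univ] at this
  -- the generic quadruple
  have c3 : ∀ᵐ y ∂(Measure.pi (fun _ : Fin 4 => ν)), ∀ i : Fin 4,
      ((x, y i) ∈ Sf ↔ (x, y i) ∈ S) ∧ ((x, y i) ∈ Sb ↔ (x, y i) ∈ S) ∧
      (∀ᵐ z ∂ν, (x, z) ∈ Sbᶜ ∩ Ω → (x, y i) ∈ Sf ∩ Ω → Disjoint (Wu (x, z)) (Ws (x, y i))) ∧
      (∀ᵐ z ∂ν, (x, y i) ∈ Sb ∩ Ω → (x, z) ∈ Sfᶜ ∩ Ω →
        Disjoint (Wu (x, y i)) (Ws (x, z))) := by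
    rw [ae_all_iff]
    intro i
    have e : ∀ᵐ y ∂ν, ((x, y) ∈ Sf ↔ (x, y) ∈ S) ∧ ((x, y) ∈ Sb ↔ (x, y) ∈ S) ∧
      (∀ᵐ z ∂ν, (x, z) ∈ Sbᶜ ∩ Ω → (x, y) ∈ Sf ∩ Ω → Disjoint (Wu (x, z)) (Ws (x, y))) ∧
      (∀ᵐ z ∂ν, (x, y) ∈ Sb ∩ Ω → (x, z) ∈ Sfᶜ ∩ Ω → Disjoint (Wu (x, y)) (Ws (x, z))) :=
      b5.and (b6.and ((ae_swap b3).and (Measure.ae_ae_of_ae_prod b4)))
    exact (Measure.quasiMeasurePreserving_eval (fun _ : Fin 4 => ν) i).ae e
  obtain ⟨y, ⟨hyS, R, hRc, hRi, hRν, hRf⟩, hy⟩ := ((b7 c2 c hc).and_eventually c3).exists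
  have hyΩ : ∀ i, (x, y i) ∈ Ω := fun i => hSΩ (hyS i)
  have hySf : ∀ i, (x, y i) ∈ Sf := fun i => (hy i).1.2 (hyS i)
  have hySb : ∀ i, (x, y i) ∈ Sb := fun i => (hy i).2.1.2 (hyS i)
  -- the generic point in the rectangle
  have d1 : ∃ᶠ z in ae ν, z ∈ Prod.mk x ⁻¹' E ∩ interior R :=
    frequently_ae_mem_iff.2 (b1 _ isOpen_interior hRi).ne'
  have d2 : ∀ᵐ z ∂ν, ∀ i, (x, z) ∈ Sbᶜ ∩ Ω → (x, y i) ∈ Sf ∩ Ω →
      Disjoint (Wu (x, z)) (Ws (x, y i)) := ae_all_iff.2 fun i => (hy i).2.2.1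
  obtain ⟨p, ⟨hpE, hpR⟩, hpd, hpSb⟩ := (d1.and_eventually (d2.and b6)).exists
  obtain ⟨n, hn⟩ := Set.mem_iUnion.1 hpE
  have hnT' : (skew A.M D.g)^[n] (x, p) ∈ T' := hn
  have hnT : (skew A.M D.g)^[n] (x, p) ∈ T := hT'T hnT'
  have hpΩ : (x, p) ∈ Ω := (iter_mem hW.inv n _).1 hnT.1.1
  have hpS : (x, p) ∉ S := fun h => hnT.1.2 ((iter_mem hSi n _).2 h)
  have hpSb' : (x, p) ∉ Sb := fun h => hpS (hpSb.1 h)
  -- the points which `Wu p` reaches
  set G := Gi (matAct A.M) D.g n x with hG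
  set xn := (matAct A.M)^[n] x with hxn
  have hit : ∀ z, (skew A.M D.g)^[n] (x, z) = (xn, G z) := fun z => D.skew_iter n x z
  set V : Set N := {q | (xn, q) ∈ T ∧ dist q (G p) < r} with hV
  have hVm : MeasurableSet V :=
    (measurable_prodMk_left hTm).inter
      (measurableSet_lt (measurable_id.dist measurable_const) measurable_const)
  have hVc : c ≤ ν V := hcT xn (G p) (by rw [← hit]; exact hnT')
  have hGV : ν (G ⁻¹' V) = ν V := (Gi_mp hg n x).measure_preimage hVm.nullMeasurableSet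
  have key : ∀ᵐ q ∂ν, q ∈ G ⁻¹' V → q ∈ R := by
    have d3 : ∀ᵐ z ∂ν, ∀ i, (x, y i) ∈ Sb ∩ Ω → (x, z) ∈ Sfᶜ ∩ Ω →
      Disjoint (Wu (x, y i)) (Ws (x, z)) := ae_all_iff.2 fun i => (hy i).2.2.2
    filter_upwards [d3, b5] with q hqd hqSf hqV
    have hqT : (xn, G q) ∈ T := hqV.1
    have hqΩ : (x, q) ∈ Ω := (iter_mem hW.inv n _).1 (by rw [hit]; exact hqT.1.1)
    have hqS : (x, q) ∉ S := fun h => hqT.1.2 (by
      have := (iter_mem hSi n _).2 h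
      rwa [hit] at this)
    have hqSf' : (x, q) ∉ Sf := fun h => hqS (hqSf.1 h)
    have hne : (Wu (x, p) ∩ Ws (x, q)).Nonempty := by
      obtain ⟨w, hw1, hw2⟩ := hΛ xn (G p) (G q) (by rw [← hit]; exact hnT.2) hqT.2
        (by rw [dist_comm]; exact hqV.2)
      rw [← hit, ← eqv_u hW n hpΩ] at hw1
      rw [← hit, ← eqv_s hW n hqΩ] at hw2
      obtain ⟨w1, hw1', hw1e⟩ := hw1
      obtain ⟨w2, hw2', hw2e⟩ := hw2
      have : w1 = w2 := (Gi (matAct A.M) D.g n x).injective (hw1e.trans hw2e.symm)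
      exact ⟨w1, hw1', this ▸ hw2'⟩
    obtain ⟨w, hw1, hw2⟩ := hne
    have hK : IsPreconnected (Wu (x, p) ∪ Ws (x, q)) :=
      (hW.conn_u _ hpΩ).union w hw1 hw2 (hW.conn_s _ hqΩ)
    have hKf : Disjoint (Wu (x, p) ∪ Ws (x, q)) (frontier R) := by
      refine Disjoint.mono_right hRf ?_
      rw [Set.disjoint_union_left]
      refine ⟨?_, ?_⟩
      · rw [Set.disjoint_union_right, Set.disjoint_union_right, Set.disjoint_union_right]
        exact ⟨⟨⟨disj_u hW hSb hpΩ (hyΩ 0) hpSb' (hySb 0),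
          disj_u hW hSb hpΩ (hyΩ 1) hpSb' (hySb 1)⟩,
          hpd 2 ⟨hpSb', hpΩ⟩ ⟨hySf 2, hyΩ 2⟩⟩, hpd 3 ⟨hpSb', hpΩ⟩ ⟨hySf 3, hyΩ 3⟩⟩
      · rw [Set.disjoint_union_right, Set.disjoint_union_right, Set.disjoint_union_right]
        exact ⟨⟨⟨(hqd 0 ⟨hySb 0, hyΩ 0⟩ ⟨hqSf', hqΩ⟩).symm,
          (hqd 1 ⟨hySb 1, hyΩ 1⟩ ⟨hqSf', hqΩ⟩).symm⟩,
          disj_s hW hSf hqΩ (hyΩ 2) hqSf' (hySf 2)⟩, disj_s hW hSf hqΩ (hyΩ 3) hqSf' (hySf 3)⟩
    exact top hRc hK hKf (Or.inl (hW.mem_u _ hpΩ)) hpR (Or.inr (hW.mem_s _ hqΩ))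
  have hlast : ν (G ⁻¹' V) ≤ ν R := measure_mono_ae key
  rw [hGV] at hlast
  exact absurd hRν (not_lt.2 (hVc.trans hlast))

end SF

end Pool.Agent.SKP
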