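import Pool.Agent.Work.MP_adbfe6_an.SF.Stmts
import Pool.Agent.Work.MP_adbfe6_an.SK.Mix

/-!
# Surface fibres, part B (mixing): statements

Every docstring is a complete proof. Prove `theorem i_X : X` (namespace `Pool.Agent.SKP.SF`) in
`Work/MP_adbfe6_an/SF/I_X.lean`, which imports this file; statements which are used may be taken as
hypotheses.
-/

set_option autoImplicit false

open Filter Topology MeasureTheory
open scoped ENNReal NNReal InnerProductSpace

namespace Pool.Agent.SKP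

namespace SF

/-- `p` and `q` are forward asymptotic under `f` -/
def FAs {M : Type} [MetricSpace M] (f : M → M) (p q : M) : Prop :=
  Tendsto (fun n : ℕ => dist (f^[n] p) (f^[n] q)) atTop (𝓝 0)

/-- `S` is measurable and consists of classes of forward asymptotic points -/
def Sset {M : Type} [MetricSpace M] [MeasurableSpace M] (f : M → M) (S : Set M) : Prop :=
  MeasurableSet S ∧ ∀ p q, FAs f p q → (p ∈ S ↔ q ∈ S)

/-- `P` has a version saturated by the forward asymptotic classes of `f` and a version saturated by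
those of `g` (`g` will be the inverse of `f`) -/
def BiSat {M : Type} [MetricSpace M] [MeasurableSpace M] (μ : Measure M) (f g : M → M)
    (P : Set M) : Prop :=
  MeasurableSet P ∧ (∃ S, Sset f S ∧ S =ᵐ[μ] P) ∧ ∃ S, Sset g S ∧ S =ᵐ[μ] P

/-- the classes of `L²` which have a measurable version constant on the forward asymptotic classes -/
def IsV {M : Type} [MetricSpace M] [MeasurableSpace M] (μ : Measure M) (f : M → M)
    (F : Lp ℝ 2 μ) : Prop :=
  ∃ g : M → ℝ, Measurable g ∧ (∀ p q, FAs f p q → g p = g q) ∧ ⇑F =ᵐ[μ] g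

/-- **Hil** (EASY-MEDIUM; model: the second half of the proof of `Pool.PSTow.mixing` in `Bd/B02.lean`).
Abstract mixing.
Proof: `wz U` (Bd/B02) is a closed submodule (`wz_closed`). `hV : Vᗮ ≤ wz U`. `V'ᗮ ≤ wz U`: for `F ∈ V'ᗮ`
and `G = G₁ + G₂`, `G₁ ∈ V'`, `G₂ ∈ V'ᗮ`: `⟪pw U n F, G⟫ = ⟪F, pw U.symm n G₁⟫ + ⟪F, pw U.symm n G₂⟫`
(`pw_inner`), the first term is `0` (`pw U.symm n G₁ ∈ V'` by induction), the second tends to `0` by
`hV'`. So `Y := (Vᗮ ⊔ V'ᗮ).topologicalClosure ≤ wz U`. `F = F₂ + F₁` with `F₂ ∈ Y`, `F₁ ∈ Yᗮ`; `F₁` is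
orthogonal to `Vᗮ` and to `V'ᗮ`, so it lies in `Vᗮᗮ = V` and in `V'` (closed submodules of a complete
space), so `F₁ = c • e`. `e ∈ Yᗮ`. The end is word for word the end of the proof of `mixing`. -/
def Hil : Prop :=
  ∀ (H : Type) [NormedAddCommGroup H] [InnerProductSpace ℝ H] [CompleteSpace H]
    (U : H ≃ₗᵢ[ℝ] H) (V V' : Submodule ℝ H), IsClosed (V : Set H) → IsClosed (V' : Set H) →
    (∀ G ∈ V', U.symm G ∈ V') → Vᗮ ≤ Pool.PSTow.wz U → V'ᗮ ≤ Pool.PSTow.wz U.symm →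
    ∀ e : H, ‖e‖ = 1 → U e = e → e ∈ V → e ∈ V' → (∀ G ∈ V, G ∈ V' → ∃ c : ℝ, G = c • e) →
    ∀ F G : H, Tendsto (fun n => ⟪Pool.PSTow.pw U n F, G⟫_ℝ) atTop (𝓝 (⟪F, e⟫_ℝ * ⟪e, G⟫_ℝ))

/-- **Vcl** (EASY-MEDIUM). `IsV μ f` is a closed subspace of `L²`.
Proof: sums and multiples: of the versions (`Lp.coeFn_add`, `Lp.coeFn_smul`, `Lp.coeFn_zero`).
Closed: let `F i → F` in `L²`, `F i = g i` a.e.; a subsequence `F (φ i)` converges a.e. to `F`
(`tendstoInMeasure_of_tendsto_Lp`, `TendstoInMeasure.exists_seq_tendsto_ae`). `g p := limsup_i g (φ i) p`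
(in `ℝ`) is measurable (`Measurable.limsup`), equals `F` a.e. (`Tendsto.limsup_eq`) and takes the same
value at `p` and `q` if all `g (φ i)` do. -/
def Vcl : Prop :=
  ∀ (M : Type) [MetricSpace M] [CompactSpace M] [MeasurableSpace M] [BorelSpace M]
    (μ : Measure M) [IsProbabilityMeasure μ] (f : M → M),
    ∃ V : Submodule ℝ (Lp ℝ 2 μ), (∀ F, F ∈ V ↔ IsV μ f F) ∧ IsClosed (V : Set (Lp ℝ 2 μ))

/-- **Mzr** (MEDIUM). Weak limits of `h ∘ f^n` have a version constant on forward asymptotic classes.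
Here `l` is an ultrafilter, so that no subsequences are needed.
Proof. For `m : ℕ` let `Q m` be the set of `c ∈ L²` such that there is a continuous `k : M → ℝ` with
`c = k` a.e. and `|k p - k q| ≤ ε` for all `ε ≥ 0`, `p`, `q` with `|h (f^[n] p) - h (f^[n] q)| ≤ ε` for
all `n ≥ m`. `Q m` is convex (combine the functions `k`) and contains the class of `h ∘ f^[n]` for
`n ≥ m`. Claim `φ ∈ closure (Q m)`: `C := closure (Q m)` is closed and convex (`Convex.closure`) and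
nonempty; let `c ∈ C` be the point nearest to `φ` (`exists_norm_eq_iInf_of_complete_convex`), so
`⟪φ - c, w - c⟫ ≤ 0` for all `w ∈ C` (`norm_eq_iInf_iff_real_inner_le_zero`). With `w =` the class of
`h ∘ f^[n]`, `n ≥ m`, in the limit along `l` (`l ≤ atTop`; `⟪φ - c, w⟫ → ⟪φ - c, φ⟫`): `‖φ - c‖² ≤ 0`, so
`φ = c ∈ C`. So there are `c m ∈ Q m` with `‖c m - φ‖ ≤ 1/(m+1)`, with continuous versions `k m`; a
subsequence `k (ψ i)` converges a.e. to `φ`. `g p := limsup_i k (ψ i) p` in `ℝ` is measurable and equals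
`φ` a.e. If `p`, `q` are forward asymptotic, then `h (f^[n] p) - h (f^[n] q) → 0` (`h` is uniformly
continuous), so `k (ψ i) p - k (ψ i) q → 0`; all `|k m| ≤ ‖h‖ + something`: to have bounded
sequences add to the definition of `Q m` that `|k p| ≤ ‖h‖` for all `p` (also a convex condition). So the
two upper limits agree (the limsup lemma of `Lsp`). -/
def Mzr : Prop :=
  ∀ (M : Type) [MetricSpace M] [CompactSpace M] [MeasurableSpace M] [BorelSpace M]
    (μ : Measure M) [IsProbabilityMeasure μ] (f : M ≃ₜ M) (hf : MeasurePreserving f μ μ)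
    (h : C(M, ℝ)) (F : Lp ℝ 2 μ), ⇑F =ᵐ[μ] ⇑h → ∀ (φ : Lp ℝ 2 μ) (l : Ultrafilter ℕ),
    (l : Filter ℕ) ≤ atTop →
    (∀ G, Tendsto (fun n => ⟪Pool.PSTow.pw (Pool.PSTow.ucmp f hf) n F, G⟫_ℝ) l (𝓝 ⟪φ, G⟫_ℝ)) →
    IsV μ f φ

/-- **Ort** (MEDIUM, uses `Mzr`, `Vcl`). Vectors orthogonal to the saturated classes tend weakly to zero.
Proof. Let `F ∈ Vᗮ`, `G ∈ L²`, `U = ucmp f hf`. Suppose `⟪pw U n F, G⟫` does not tend to `0`: there is
`ε > 0` with `∃ᶠ n in atTop, ε ≤ |⟪pw U n F, G⟫|`; let `l` be an ultrafilter with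
`l ≤ atTop ⊓ 𝓟 {n | ε ≤ |⟪pw U n F, G⟫|}` (`Ultrafilter.of`). For every bounded sequence `u n` of `L²`
there is a `φ` with `⟪u n, G'⟫ → ⟪φ, G'⟫` along `l` for all `G'` (bounded real sequences converge along
an ultrafilter: compactness of `[-C, C]`; the limit is a bounded linear functional of `G'`, Riesz:
`InnerProductSpace.toDual`; or use `WeakDual.isCompact_closedBall` via `toDual`). Let `φ'` be the limit
for `u n = pw U n F`. `φ' ∈ Vᗮ`: `pw U n F ∈ Vᗮ` because `V` is invariant under `U.symm` (if `g` is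
constant on the forward asymptotic classes of `f` then so is `g ∘ f.symm`, since `f.symm` maps forward
asymptotic pairs to forward asymptotic pairs; and `⟪pw U n F, G'⟫ = ⟪F, pw U.symm n G'⟫`), and the limit
of `0` is `0`. Let `δ > 0` and `h : C(M, ℝ)` with `‖h' - F‖ ≤ δ` for the class `h'` of `h` (continuous
functions are dense in `L²`: `BoundedContinuousFunction.toLp_denseRange` /
`ContinuousMap.toLp_denseRange`). Let `φ` be the weak limit of `pw U n h'` along `l`: `φ ∈ V` by `Mzr`,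
and `‖φ' - φ‖ ≤ δ` (`⟪φ' - φ, φ' - φ⟫` is the limit of `⟪pw U n (F - h'), φ' - φ⟫ ≤ δ ‖φ' - φ‖`).
`‖φ'‖² = ⟪φ', φ' - φ⟫ ≤ δ ‖φ'‖`. So `φ' = 0`, but `|⟪φ', G⟫| ≥ ε`: contradiction. -/
def Ort : Prop :=
  ∀ (M : Type) [MetricSpace M] [CompactSpace M] [MeasurableSpace M] [BorelSpace M]
    (μ : Measure M) [IsProbabilityMeasure μ] (f : M ≃ₜ M) (hf : MeasurePreserving f μ μ)
    (V : Submodule ℝ (Lp ℝ 2 μ)), (∀ F, F ∈ V ↔ IsV μ f F) →
    Vᗮ ≤ Pool.PSTow.wz (Pool.PSTow.ucmp f hf)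

/-- **Cou** (MEDIUM, uses `Hil`, `Vcl`, `Ort`; model: `Pool.PSTow.mix_meas` in `Bd/B02.lean`). Coudène's
form of the Hopf argument: if all bi-saturated sets are trivial, then `f` is mixing.
Proof. `U = ucmp f hf`, `e =` the class of `1` (as in `mix_meas`). `V` from `Vcl` for `f`, `V'` from
`Vcl` for `f.symm`. `Vᗮ ≤ wz U` by `Ort`; `V'ᗮ ≤ wz U.symm` by `Ort` for `f.symm`
(`ucmp f.symm _ = U.symm`: `ucmp_symm`). `V'` is `U.symm`-invariant: if `g` is constant on the forward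
asymptotic classes of `f.symm`, so is `g ∘ f.symm`. Let `G ∈ V ∩ V'`, `G = g = g'` a.e.; for `t : ℝ`,
`P = {g > t}` is bi-saturated (versions `{g > t}` and `{g' > t}`), so `μ {g > t} = 0` or
`μ {g ≤ t} = 0`, for all `t`: `g` is a.e. constant (for example `t₀ := sSup {t rational | μ {g ≤ t} = 0}`;
or the library lemma `Two.const_of_level` for the function `arctan g / π + 1/2`, see the end of
`SK/Mix.lean`). `Hil` gives the convergence of the inner products; the end is word for word the end of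
the proof of `mix_meas`. -/
def Cou : Prop :=
  ∀ (M : Type) [MetricSpace M] [CompactSpace M] [MeasurableSpace M] [BorelSpace M]
    (μ : Measure M) [IsProbabilityMeasure μ] (f : M ≃ₜ M), MeasurePreserving f μ μ →
    (∀ P : Set M, BiSat μ f f.symm P → μ P = 0 ∨ μ Pᶜ = 0) →
    ∀ S T : Set M, MeasurableSet S → MeasurableSet T →
      Tendsto (fun n : ℕ => μ (f^[n] ⁻¹' S ∩ T)) atTop (𝓝 (μ S * μ T))

/-- **Slc** (EASY-MEDIUM; part of the proof of `Ful`). The slices of a set which is invariant under the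
holonomies have the same measure.
Proof: first half of the docstring of `Ful`: with `e x z = D.bun.e m ρ E x z`, `E = S.indicator 1`,
`X x := {z | 1/2 < e x z}`: `ν (X x)` does not depend on `x` (`D.dens_run_leaf`, `D.hol_mp`, `D.surj`),
and for a.e. `x`, `X x = S_x` a.e. (`D.dens_eq`, `Measure.ae_ae_of_ae_prod`); so for a.e. `x`,
`ν S_x = ν (X x₀)`, and `(lam.prod ν) S = ∫ ν S_x = ν (X x₀)` (`Measure.prod_apply`). -/
def Slc : Prop :=
  ∀ (B Ws Wu N : Type) [NormedAddCommGroup B] [CompactSpace B] [NormedAddCommGroup Ws]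
    [NormedAddCommGroup Wu] [MetricSpace N] [CompactSpace N] (D : Two B Ws Wu N)
    [MeasurableSpace B] [BorelSpace B] [MeasurableSpace N] [BorelSpace N]
    [NormedSpace ℝ Ws] [NormedSpace ℝ Wu] [FiniteDimensional ℝ Ws] [FiniteDimensional ℝ Wu]
    [MeasurableSpace Ws] [BorelSpace Ws] [MeasurableSpace Wu] [BorelSpace Wu]
    (ν : Measure N) [IsProbabilityMeasure ν] (lam : Measure B)
    [IsProbabilityMeasure lam] [lam.IsAddLeftInvariant],
    (∀ x, MeasurePreserving (D.s.g x) ν ν) → ∀ S : Set (B × N), MeasurableSet S →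
    (∀ v, S.indicator (fun _ => (1 : ℝ)) ∘ D.s.T v =ᵐ[lam.prod ν] S.indicator (fun _ => (1 : ℝ))) →
    (∀ w, S.indicator (fun _ => (1 : ℝ)) ∘ D.u.T w =ᵐ[lam.prod ν] S.indicator (fun _ => (1 : ℝ))) →
    ∀ᵐ x ∂lam, ν (Prod.mk x ⁻¹' S) = (lam.prod ν) S

/-- **Tvi** (EASY-MEDIUM). Bi-saturated sets are invariant under the holonomies.
Proof: `D.s.T v p` and `p` are forward asymptotic under `D.s.F`: `F^[n] (T v p) = T (L^[n] v) (F^[n] p)`
(`Side.F_T`, induction), and `T (L^[n] v) → id` uniformly (`Side.Tc_tendsto` in `SK/Mix.lean`: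
convergence in `C(B × N, B × N)` is uniform, `ContinuousMap.tendsto_iff_tendstoUniformly`). So the
version `S'` saturated under `D.s.F` is exactly invariant under `T v`, and `P = S'` a.e. with `T v`
measure preserving (`Side.T_mp`). The same for `D.u`. -/
def Tvi : Prop :=
  ∀ (B Ws Wu N : Type) [NormedAddCommGroup B] [CompactSpace B] [NormedAddCommGroup Ws]
    [NormedAddCommGroup Wu] [MetricSpace N] [CompactSpace N] (D : Two B Ws Wu N)
    [MeasurableSpace B] [BorelSpace B] [MeasurableSpace N] [BorelSpace N]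
    [NormedSpace ℝ Ws] [NormedSpace ℝ Wu] [FiniteDimensional ℝ Ws] [FiniteDimensional ℝ Wu]
    (ν : Measure N) [IsProbabilityMeasure ν] (lam : Measure B)
    [IsProbabilityMeasure lam] [lam.IsAddLeftInvariant],
    (∀ x, MeasurePreserving (D.s.g x) ν ν) → ∀ P : Set (B × N),
    BiSat (lam.prod ν) D.s.F D.u.F P →
    (∀ v, P.indicator (fun _ => (1 : ℝ)) ∘ D.s.T v =ᵐ[lam.prod ν] P.indicator (fun _ => (1 : ℝ))) ∧
    (∀ w, P.indicator (fun _ => (1 : ℝ)) ∘ D.u.T w =ᵐ[lam.prod ν] P.indicator (fun _ => (1 : ℝ)))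

/-- **Loc** (EASY-MEDIUM). Bi-saturated sets are locally constant on the slices of the blocks (Hopf).
Proof: let `S` (`S'`) be the versions of `P` saturated under `f` (under the inverse). `hW.ac` for the
pair `(S', Sᶜ)` and for the pair `(S'ᶜ, S)` (saturation by `hW.asym_u`, `hW.asym_s`; the
intersections are null sets) gives for a.e. `x` and a.e. `q`: not [`(x, q.1) ∈ S' ∩ Ω`,
`(x, q.2) ∈ Sᶜ ∩ Ω` and `Wu (x, q.1)`, `Ws (x, q.2)` meet], and the same for `S'ᶜ`, `S`. For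
`(x, q.1), (x, q.2) ∈ Λ ⊆ Ω` with `dist q.1 q.2 < r` they meet. And for a.e. `x`, a.e. `q`:
`(x, q.1) ∈ S' ↔ (x, q.1) ∈ P`, `(x, q.2) ∈ S ↔ (x, q.2) ∈ P`
(`Measure.quasiMeasurePreserving_fst`, `..._snd`). The main argument in `SF/Main.lean` contains these
steps. -/
def Loc : Prop :=
  ∀ (d : ℕ) (N : Type) [MetricSpace N] [CompactSpace N] [MeasurableSpace N] [BorelSpace N]
    (ν : Measure N) [IsProbabilityMeasure ν] (A : HypAut d) (D : Fibres A N)
    (Ω : Set (Tor d × N)) (Wu Ws : Tor d × N → Set N), PesinFibres A D.g ν Ω Wu Ws →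
    ∀ (Λ : Set (Tor d × N)) (r : ℝ), Λ ⊆ Ω →
    (∀ x y y', (x, y) ∈ Λ → (x, y') ∈ Λ → dist y y' < r → (Wu (x, y) ∩ Ws (x, y')).Nonempty) →
    ∀ P : Set (Tor d × N),
    BiSat (volume.prod ν) (skew A.M D.g) (skewInv A.Mi D.g) P →
    ∀ᵐ x : Tor d, ∀ᵐ q ∂(ν.prod ν), (x, q.1) ∈ Λ → (x, q.2) ∈ Λ → dist q.1 q.2 < r →
      ((x, q.1) ∈ P ↔ (x, q.2) ∈ P)

/-- **Dic** (EASY). A locally constant set is full or null in a small piece.
Proof: if both are positive, then the product set `((P ∩ Y) ×ˢ (Y \ P))` has positive measure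
(`Measure.prod_prod`), but by `h` a.e. point of it is excluded. -/
def Dic : Prop :=
  ∀ (N : Type) [MeasurableSpace N] (ν : Measure N) [SFinite ν] (P Y : Set N),
    (∀ᵐ q ∂(ν.prod ν), q.1 ∈ Y → q.2 ∈ Y → (q.1 ∈ P ↔ q.2 ∈ P)) →
    ν (P ∩ Y) = 0 ∨ ν (Y \ P) = 0

/-- **Cnt** (EASY-MEDIUM, uses `Dic`). Among many locally constant sets two agree on `Y`.
Proof: `N` is covered by finitely many balls `B_1, …, B_m` of radius `r / 2` (compactness; the number
`m` depends on `r` only). For `P` locally constant on `Y` (at distances `< r`) and every `k`,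
`ν (P ∩ (Y ∩ B_k)) = 0` or `ν ((Y ∩ B_k) \ P) = 0` (`Dic`). Among `K + 1 := 2 ^ m + 1` sets two have the
same pattern `{k | ν (P ∩ (Y ∩ B_k)) = 0}` (pigeonhole), and then their difference `symmDiff` is null
on every `Y ∩ B_k`, so on `Y`. -/
def Cnt : Prop :=
  ∀ (N : Type) [MetricSpace N] [CompactSpace N] [MeasurableSpace N] [BorelSpace N] (r : ℝ), 0 < r →
    ∃ K : ℕ, ∀ (ν : Measure N) [IsProbabilityMeasure ν] (Y : Set N) (P : ℕ → Set N),
    (∀ i, ∀ᵐ q ∂(ν.prod ν), q.1 ∈ Y → q.2 ∈ Y → dist q.1 q.2 < r → (q.1 ∈ P i ↔ q.2 ∈ P i)) →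
    ∃ i j, i < j ∧ j ≤ K ∧ ν (symmDiff (P i) (P j) ∩ Y) = 0

/-- **Sml** (EASY-MEDIUM, uses `Dic`). Small locally constant sets which cover almost everything
make `Y` small.
Proof: cover `N` by `m` balls `B_k` of radius `r / 2`, `K := m`. For every `k`: either some `P i` has
`ν ((Y ∩ B_k) \ P i) = 0`, then `ν (Y ∩ B_k) ≤ ν (P i) ≤ δ`; or by `Dic` all `ν (P i ∩ (Y ∩ B_k)) = 0`,
then `ν (Y ∩ B_k) ≤ ν (⋃ i, P i)ᶜ + ∑ i, ν (P i ∩ (Y ∩ B_k)) = 0`. So `ν Y ≤ ∑ k, ν (Y ∩ B_k) ≤ m δ`. -/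
def Sml : Prop :=
  ∀ (N : Type) [MetricSpace N] [CompactSpace N] [MeasurableSpace N] [BorelSpace N] (r : ℝ), 0 < r →
    ∃ K : ℕ, ∀ (ν : Measure N) [IsProbabilityMeasure ν] (Y : Set N) (P : ℕ → Set N) (δ : ℝ≥0∞),
    (∀ i, ∀ᵐ q ∂(ν.prod ν), q.1 ∈ Y → q.2 ∈ Y → dist q.1 q.2 < r → (q.1 ∈ P i ↔ q.2 ∈ P i)) →
    (∀ i, ν (P i) ≤ δ) → ν (⋃ i, P i)ᶜ = 0 → ν Y ≤ K * δ

end SF

end Pool.Agent.SKP
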