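import Pool.Agent.Work.MP_adbfe6_an.SF.Main
import Pool.Agent.Work.MP_adbfe6_an.SF.StmtsB
import Pool.Agent.Work.MP_adbfe6_an.SF.I_Ful

/-!
# Surface fibres: the main argument for the powers of the map
-/

set_option autoImplicit false

open Filter Topology MeasureTheory
open scoped ENNReal NNReal

namespace Pool.Agent.SKP

namespace SF

theorem FAs.iter {M : Type} [MetricSpace M] {f : M → M} {k : ℕ} (hk : 0 < k) {p q : M}
    (h : FAs f p q) : FAs (f^[k]) p q := by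
  have h1 : Tendsto (fun n : ℕ => k * n) atTop atTop := tendsto_id.const_mul_atTop' hk
  have h2 := Tendsto.comp h h1
  refine h2.congr fun n => ?_
  simp only [Function.comp_apply, Function.iterate_mul]

theorem biSat_of_iter (h1 : Sat) {M : Type} [MetricSpace M] [CompactSpace M] [MeasurableSpace M]
    [BorelSpace M] {μ : Measure M} [IsProbabilityMeasure μ] {f g : M → M}
    (hf : MeasurePreserving f μ μ) (hg : MeasurePreserving g μ μ) (cf : Continuous f)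
    (cg : Continuous g) (hfg : ∀ p, f (g p) = p) {k : ℕ} (hk : 0 < k) {S : Set M}
    (hS : MeasurableSet S) (hi : f^[k] ⁻¹' S =ᵐ[μ] S) : BiSat μ f g S := by
  refine ⟨hS, ?_, ?_⟩
  · obtain ⟨S', h2, h3, h4⟩ := h1 M μ (f^[k]) (hf.iterate k) (cf.iterate k) S hS hi
    exact ⟨S', ⟨h2, fun p q hpq => h4 p q (hpq.iter hk)⟩, h3⟩
  · have hfgk : ∀ p, f^[k] (g^[k] p) = p := Function.LeftInverse.iterate hfg k
    have h5 : g^[k] ⁻¹' S =ᵐ[μ] S := by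
      have h6 := (hg.iterate k).quasiMeasurePreserving.preimage_ae_eq hi
      have h7 : g^[k] ⁻¹' (f^[k] ⁻¹' S) = S := by
        ext p
        simp only [Set.mem_preimage, hfgk]
      rw [h7] at h6
      exact h6.symm
    obtain ⟨S', h2, h3, h4⟩ := h1 M μ (g^[k]) (hg.iterate k) (cg.iterate k) S hS h5
    exact ⟨S', ⟨h2, fun p q hpq => h4 p q (hpq.iter hk)⟩, h3⟩

theorem main_k (h1 : Sat) (hH : Hom) (hL : Lnd) (h3 : Blk) (h4 : Tvi) {d : ℕ} {N : Type} [MetricSpace N] [CompactSpace N]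
    [MeasurableSpace N] [BorelSpace N] (ν : Measure N) [IsProbabilityMeasure ν]
    [ν.IsOpenPosMeasure] (A : HypAut d) (D : Fibres A N)
    (hg : ∀ x, MeasurePreserving (D.g x) ν ν) (hacc : EssAccessible A D.g (volume.prod ν))
    {Ω : Set (Tor d × N)} {Wu Ws : Tor d × N → Set N} (hW : PesinFibres A D.g ν Ω Wu Ws)
    {k : ℕ} (hk : 0 < k) {S : Set (Tor d × N)} (hS : MeasurableSet S) (hSΩ : S ⊆ Ω)
    (hSk : (skew A.M D.g)^[k] ⁻¹' S = S) :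
    (volume.prod ν) S = 0 ∨ (volume.prod ν) (Ω \ S) = 0 := by
  by_contra hcon
  push Not at hcon
  obtain ⟨hS0, hS'0⟩ := hcon
  set μ : Measure (Tor d × N) := (volume : Measure (Tor d)).prod ν with hμ
  have hA : MeasurePreserving (matAct A.M : Tor d → Tor d) volume volume := matAct_mp A.mul_inv
  have hF : MeasurePreserving (skew A.M D.g) μ μ := D.two.s.F_mp hg hA
  have hFi : MeasurePreserving (skewInv A.Mi D.g) μ μ :=
    D.two.u.F_mp (D.two.u_g_mp hg) (D.two.u_A_mp hA)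
  have hFc : Continuous (skew A.M D.g) := D.two.s.F_cont
  have hFic : Continuous (skewInv A.Mi D.g) := D.two.u.F_cont
  have hE : D.two.EssAcc volume ν := essAcc_of D hacc
  have hfg : ∀ p, skew A.M D.g (skewInv A.Mi D.g p) = p := fun p => D.two.su_F p
  have hSi : ∀ (n : ℕ) p, (skew A.M D.g)^[k * n] p ∈ S ↔ p ∈ S := by
    intro n
    induction n with
    | zero => intro p; rfl
    | succ n ih =>
      intro p
      have h5 : (skew A.M D.g)^[k * (n + 1)] p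
          = (skew A.M D.g)^[k] ((skew A.M D.g)^[k * n] p) := by
        rw [mul_add, mul_one, add_comm, Function.iterate_add_apply]
      rw [h5, ← ih p]
      show (skew A.M D.g)^[k * n] p ∈ (skew A.M D.g)^[k] ⁻¹' S ↔ _
      rw [hSk]
  have hBS : BiSat μ (skew A.M D.g) (skewInv A.Mi D.g) S :=
    biSat_of_iter h1 hF hFi hFc hFic hfg hk hS (by rw [hSk])
  have hful : ∀ E : Set (Tor d × N), BiSat μ (skew A.M D.g) (skewInv A.Mi D.g) E → 0 < μ E →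
      ∀ᵐ x : Tor d, ∀ U : Set N, IsOpen U → U.Nonempty → 0 < ν (Prod.mk x ⁻¹' E ∩ U) := by
    intro E hEb hEp
    have h5 := h4 _ _ _ _ D.two ν volume hg E hEb
    exact ful_of_hol hH hL D.two ν volume hg hE E hEb.1 h5.1 h5.2 hEp
  obtain ⟨-, ⟨Sf, ⟨hSfm, hSf⟩, hSfe⟩, ⟨Sb, ⟨hSbm, hSb⟩, hSbe⟩⟩ := id hBS
  -- the block
  obtain ⟨Λ, hΛΩ, hΛm, hΛε, r, hr, hΛ⟩ := hW.block (μ (Ω \ S)) (pos_iff_ne_zero.2 hS'0)
  set T : Set (Tor d × N) := (Ω \ S) ∩ Λ with hT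
  have hTm : MeasurableSet T := (hW.meas.diff hS).inter hΛm
  have hTpos : 0 < μ T := by
    rw [pos_iff_ne_zero]
    intro h0
    have h5 : μ (Ω \ S) ≤ μ (Ω \ Λ) + μ T := by
      refine (measure_mono ?_).trans (measure_union_le _ _)
      intro p hp
      by_cases h : p ∈ Λ
      · exact Or.inr ⟨hp, h⟩
      · exact Or.inl ⟨hp.1, h⟩
    rw [h0, add_zero] at h5
    exact absurd hΛε (not_lt.2 h5)
  obtain ⟨T', hT'T, hT'm, hT'pos, c, hc, hcT⟩ := h3 _ _ volume ν T hTm hTpos r hr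
  -- the points which reach `T'`
  set E : Set (Tor d × N) := ⋃ n : ℕ, (skew A.M D.g)^[k * n] ⁻¹' T' with hEdef
  have hEm : MeasurableSet E := MeasurableSet.iUnion fun n =>
    (hFc.iterate (k * n)).measurable hT'm
  have hEpos : 0 < μ E := by
    refine lt_of_lt_of_le hT'pos (measure_mono ?_)
    intro p hp
    exact Set.mem_iUnion.2 ⟨0, hp⟩
  have hEsub : (skew A.M D.g)^[k] ⁻¹' E ⊆ E := by
    intro p hp
    obtain ⟨n, hn⟩ := Set.mem_iUnion.1 hp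
    exact Set.mem_iUnion.2 ⟨n + 1, by
      show (skew A.M D.g)^[k * (n + 1)] p ∈ T'
      rw [mul_add, mul_one, Function.iterate_add_apply]
      exact hn⟩
  have hEi : (skew A.M D.g)^[k] ⁻¹' E =ᵐ[μ] E := by
    refine ae_eq_of_subset_of_measure_ge hEsub ?_
      ((hF.iterate k).measurable hEm).nullMeasurableSet (measure_ne_top _ _)
    rw [(hF.iterate k).measure_preimage hEm.nullMeasurableSet]
  have a1 := hful E (biSat_of_iter h1 hF hFi hFc hFic hfg hk hEm hEi) hEpos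
  have a2 := hful S hBS (pos_iff_ne_zero.2 hS0)
  have a3 := hW.ac Sbᶜ Sf hSbm.compl hSfm
    (by
      intro p hp z hz hzS
      exact hp.1 ((hSb _ _ (hW.asym_u p hp.2 z hz)).2 hzS))
    (by
      intro p hp z hz
      exact (hSf _ _ (hW.asym_s p hp.2 z hz)).1 hp.1)
    (by
      have h5 : (Sbᶜ ∩ Sf : Set (Tor d × N)) =ᵐ[μ] (Sᶜ ∩ S : Set (Tor d × N)) :=
        hSbe.compl.inter hSfe
      rw [measure_congr h5, Set.compl_inter_self, measure_empty])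
  have a4 := hW.ac Sb Sfᶜ hSbm hSfm.compl
    (by
      intro p hp z hz
      exact (hSb _ _ (hW.asym_u p hp.2 z hz)).1 hp.1)
    (by
      intro p hp z hz hzS
      exact hp.1 ((hSf _ _ (hW.asym_s p hp.2 z hz)).2 hzS))
    (by
      have h5 : (Sb ∩ Sfᶜ : Set (Tor d × N)) =ᵐ[μ] (S ∩ Sᶜ : Set (Tor d × N)) :=
        hSbe.inter hSfe.compl
      rw [measure_congr h5, Set.inter_compl_self, measure_empty])
  have a5 : ∀ᵐ x ∂(volume : Measure (Tor d)), ∀ᵐ y ∂ν, ((x, y) ∈ Sf ↔ (x, y) ∈ S) :=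
    Measure.ae_ae_of_ae_prod (hSfe.mono fun p hp => Iff.of_eq hp)
  have a6 : ∀ᵐ x ∂(volume : Measure (Tor d)), ∀ᵐ y ∂ν, ((x, y) ∈ Sb ↔ (x, y) ∈ S) :=
    Measure.ae_ae_of_ae_prod (hSbe.mono fun p hp => Iff.of_eq hp)
  have a7 := hW.rect S hSΩ hS
  obtain ⟨x, b1, b2, b3, b4, b5, b6, b7⟩ :=
    (a1.and (a2.and (a3.and (a4.and (a5.and (a6.and a7)))))).exists
  have : Nonempty N := nonempty_of_isProbabilityMeasure ν
  have c2 : 0 < ν (Prod.mk x ⁻¹' S) := by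
    have := b2 Set.univ isOpen_univ Set.univ_nonempty
    rwa [Set.inter_univ] at this
  -- the generic quadruple
  have c3 : ∀ᵐ y ∂(Measure.pi (fun _ : Fin 4 => ν)), ∀ i : Fin 4,
      ((x, y i) ∈ Sf ↔ (x, y i) ∈ S) ∧ ((x, y i) ∈ Sb ↔ (x, y i) ∈ S) ∧
      (∀ᵐ z ∂ν, (x, z) ∈ Sbᶜ ∩ Ω → (x, y i) ∈ Sf ∩ Ω → Disjoint (Wu (x, z)) (Ws (x, y i))) ∧
      (∀ᵐ z ∂ν, (x, y i) ∈ Sb ∩ Ω → (x, z) ∈ Sfᶜ ∩ Ω →
        Disjoint (Wu (x, y i)) (Ws (x, z))) := by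
    rw [ae_all_iff]
    intro i
    have e : ∀ᵐ y ∂ν, ((x, y) ∈ Sf ↔ (x, y) ∈ S) ∧ ((x, y) ∈ Sb ↔ (x, y) ∈ S) ∧
      (∀ᵐ z ∂ν, (x, z) ∈ Sbᶜ ∩ Ω → (x, y) ∈ Sf ∩ Ω → Disjoint (Wu (x, z)) (Ws (x, y))) ∧
      (∀ᵐ z ∂ν, (x, y) ∈ Sb ∩ Ω → (x, z) ∈ Sfᶜ ∩ Ω → Disjoint (Wu (x, y)) (Ws (x, z))) :=
      b5.and (b6.and ((ae_swap b3).and (Measure.ae_ae_of_ae_prod b4)))
    exact (Measure.quasiMeasurePreserving_eval (fun _ : Fin 4 => ν) i).ae e
  obtain ⟨y, ⟨hyS, R, hRc, hRi, hRν, hRf⟩, hy⟩ := ((b7 c2 c hc).and_eventually c3).exists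
  have hyΩ : ∀ i, (x, y i) ∈ Ω := fun i => hSΩ (hyS i)
  have hySf : ∀ i, (x, y i) ∈ Sf := fun i => (hy i).1.2 (hyS i)
  have hySb : ∀ i, (x, y i) ∈ Sb := fun i => (hy i).2.1.2 (hyS i)
  -- the generic point in the rectangle
  have d1 : ∃ᶠ z in ae ν, z ∈ Prod.mk x ⁻¹' E ∩ interior R :=
    frequently_ae_mem_iff.2 (b1 _ isOpen_interior hRi).ne'
  have d2 : ∀ᵐ z ∂ν, ∀ i, (x, z) ∈ Sbᶜ ∩ Ω → (x, y i) ∈ Sf ∩ Ω →
      Disjoint (Wu (x, z)) (Ws (x, y i)) := ae_all_iff.2 fun i => (hy i).2.2.1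
  obtain ⟨p, ⟨hpE, hpR⟩, hpd, hpSb⟩ := (d1.and_eventually (d2.and b6)).exists
  obtain ⟨n', hn⟩ := Set.mem_iUnion.1 hpE
  set n := k * n' with hndef
  have hSin : ∀ p, (skew A.M D.g)^[n] p ∈ S ↔ p ∈ S := hSi n'
  have hnT' : (skew A.M D.g)^[n] (x, p) ∈ T' := hn
  have hnT : (skew A.M D.g)^[n] (x, p) ∈ T := hT'T hnT'
  have hpΩ : (x, p) ∈ Ω := (iter_mem hW.inv n _).1 hnT.1.1
  have hpS : (x, p) ∉ S := fun h => hnT.1.2 ((hSin _).2 h)
  have hpSb' : (x, p) ∉ Sb := fun h => hpS (hpSb.1 h)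
  -- the points which `Wu p` reaches
  set G := Gi (matAct A.M) D.g n x with hG
  set xn := (matAct A.M)^[n] x with hxn
  have hit : ∀ z, (skew A.M D.g)^[n] (x, z) = (xn, G z) := fun z => D.skew_iter n x z
  set V : Set N := {q | (xn, q) ∈ T ∧ dist q (G p) < r} with hV
  have hVm : MeasurableSet V :=
    (measurable_prodMk_left hTm).inter
      (measurableSet_lt (measurable_id.dist measurable_const) measurable_const)
  have hVc : c ≤ ν V := hcT xn (G p) (by rw [← hit]; exact hnT')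
  have hGV : ν (G ⁻¹' V) = ν V := (Gi_mp hg n x).measure_preimage hVm.nullMeasurableSet
  have key : ∀ᵐ q ∂ν, q ∈ G ⁻¹' V → q ∈ R := by
    have d3 : ∀ᵐ z ∂ν, ∀ i, (x, y i) ∈ Sb ∩ Ω → (x, z) ∈ Sfᶜ ∩ Ω →
      Disjoint (Wu (x, y i)) (Ws (x, z)) := ae_all_iff.2 fun i => (hy i).2.2.2
    filter_upwards [d3, b5] with q hqd hqSf hqV
    have hqT : (xn, G q) ∈ T := hqV.1
    have hqΩ : (x, q) ∈ Ω := (iter_mem hW.inv n _).1 (by rw [hit]; exact hqT.1.1)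
    have hqS : (x, q) ∉ S := fun h => hqT.1.2 (by
      have := (hSin _).2 h
      rwa [hit] at this)
    have hqSf' : (x, q) ∉ Sf := fun h => hqS (hqSf.1 h)
    have hne : (Wu (x, p) ∩ Ws (x, q)).Nonempty := by
      obtain ⟨w, hw1, hw2⟩ := hΛ xn (G p) (G q) (by rw [← hit]; exact hnT.2) hqT.2
        (by rw [dist_comm]; exact hqV.2)
      rw [← hit, ← eqv_u hW n hpΩ] at hw1
      rw [← hit, ← eqv_s hW n hqΩ] at hw2
      obtain ⟨w1, hw1', hw1e⟩ := hw1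
      obtain ⟨w2, hw2', hw2e⟩ := hw2
      have : w1 = w2 := (Gi (matAct A.M) D.g n x).injective (hw1e.trans hw2e.symm)
      exact ⟨w1, hw1', this ▸ hw2'⟩
    obtain ⟨w, hw1, hw2⟩ := hne
    have hK : IsPreconnected (Wu (x, p) ∪ Ws (x, q)) :=
      (hW.conn_u _ hpΩ).union w hw1 hw2 (hW.conn_s _ hqΩ)
    have hKf : Disjoint (Wu (x, p) ∪ Ws (x, q)) (frontier R) := by
      refine Disjoint.mono_right hRf ?_
      rw [Set.disjoint_union_left]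
      refine ⟨?_, ?_⟩
      · rw [Set.disjoint_union_right, Set.disjoint_union_right, Set.disjoint_union_right]
        exact ⟨⟨⟨disj_u hW hSb hpΩ (hyΩ 0) hpSb' (hySb 0),
          disj_u hW hSb hpΩ (hyΩ 1) hpSb' (hySb 1)⟩,
          hpd 2 ⟨hpSb', hpΩ⟩ ⟨hySf 2, hyΩ 2⟩⟩, hpd 3 ⟨hpSb', hpΩ⟩ ⟨hySf 3, hyΩ 3⟩⟩
      · rw [Set.disjoint_union_right, Set.disjoint_union_right, Set.disjoint_union_right]
        exact ⟨⟨⟨(hqd 0 ⟨hySb 0, hyΩ 0⟩ ⟨hqSf', hqΩ⟩).symm,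
          (hqd 1 ⟨hySb 1, hyΩ 1⟩ ⟨hqSf', hqΩ⟩).symm⟩,
          disj_s hW hSf hqΩ (hyΩ 2) hqSf' (hySf 2)⟩, disj_s hW hSf hqΩ (hyΩ 3) hqSf' (hySf 3)⟩
    exact top hRc hK hKf (Or.inl (hW.mem_u _ hpΩ)) hpR (Or.inr (hW.mem_s _ hqΩ))
  have hlast : ν (G ⁻¹' V) ≤ ν R := measure_mono_ae key
  rw [hGV] at hlast
  exact absurd hRν (not_lt.2 (hVc.trans hlast))

end SF

end Pool.Agent.SKP
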