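import Pool.Agent.Work.MP_adbfe6_an.SF.MainK

/-!
# Surface fibres: bi-saturated sets are trivial
-/

set_option autoImplicit false

open Filter Topology MeasureTheory
open scoped ENNReal NNReal

namespace Pool.Agent.SKP

namespace SF

section

variable {M : Type} [MetricSpace M] [MeasurableSpace M] {μ : Measure M} {f g : M → M}

theorem FAs.map {p q : M} (h : FAs f p q) : FAs f (f p) (f q) := by
  have h1 := Tendsto.comp h (tendsto_add_atTop_nat 1)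
  refine h1.congr fun n => ?_
  simp only [Function.comp_apply, Function.iterate_succ_apply]

theorem FAs.map_inv (hgf : ∀ p, g (f p) = p) {p q : M} (h : FAs g p q) : FAs g (f p) (f q) := by
  have h1 : Tendsto (fun n : ℕ => dist (g^[n + 1] (f p)) (g^[n + 1] (f q))) atTop (𝓝 0) := by
    refine Tendsto.congr (fun n => ?_) h
    rw [Function.iterate_succ_apply, Function.iterate_succ_apply, hgf, hgf]
  exact (tendsto_add_atTop_iff_nat 1).1 h1

theorem Sset.compl {S : Set M} (h : Sset f S) : Sset f Sᶜ :=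
  ⟨h.1.compl, fun p q hpq => not_congr (h.2 p q hpq)⟩

theorem Sset.inter {S T : Set M} (h : Sset f S) (h' : Sset f T) : Sset f (S ∩ T) :=
  ⟨h.1.inter h'.1, fun p q hpq => and_congr (h.2 p q hpq) (h'.2 p q hpq)⟩

theorem BiSat.compl {P : Set M} (h : BiSat μ f g P) : BiSat μ f g Pᶜ := by
  obtain ⟨h1, ⟨S, hS, hSe⟩, ⟨S', hS', hSe'⟩⟩ := h
  exact ⟨h1.compl, ⟨Sᶜ, hS.compl, hSe.compl⟩, ⟨S'ᶜ, hS'.compl, hSe'.compl⟩⟩

theorem BiSat.inter {P Q : Set M} (h : BiSat μ f g P) (h' : BiSat μ f g Q) :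
    BiSat μ f g (P ∩ Q) := by
  obtain ⟨h1, ⟨S, hS, hSe⟩, ⟨S', hS', hSe'⟩⟩ := h
  obtain ⟨h2, ⟨T, hT, hTe⟩, ⟨T', hT', hTe'⟩⟩ := h'
  exact ⟨h1.inter h2, ⟨S ∩ T, hS.inter hT, hSe.inter hTe⟩,
    ⟨S' ∩ T', hS'.inter hT', hSe'.inter hTe'⟩⟩

theorem BiSat.union {P Q : Set M} (h : BiSat μ f g P) (h' : BiSat μ f g Q) :
    BiSat μ f g (P ∪ Q) := by
  have := (h.compl.inter h'.compl).compl
  rwa [Set.compl_inter, compl_compl, compl_compl] at this

theorem BiSat.sdiff {P Q : Set M} (h : BiSat μ f g P) (h' : BiSat μ f g Q) :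
    BiSat μ f g (symmDiff P Q) := by
  have h1 : symmDiff P Q = (P ∩ Qᶜ) ∪ (Q ∩ Pᶜ) := rfl
  rw [h1]
  exact (h.inter h'.compl).union (h'.inter h.compl)

theorem BiSat.preimage (hf : MeasurePreserving f μ μ) (hgf : ∀ p, g (f p) = p) {P : Set M}
    (h : BiSat μ f g P) : BiSat μ f g (f ⁻¹' P) := by
  obtain ⟨h1, ⟨S, hS, hSe⟩, ⟨S', hS', hSe'⟩⟩ := h
  refine ⟨hf.measurable h1, ⟨f ⁻¹' S, ⟨hf.measurable hS.1, fun p q hpq => hS.2 _ _ hpq.map⟩,
    hf.quasiMeasurePreserving.preimage_ae_eq hSe⟩, ⟨f ⁻¹' S', ⟨hf.measurable hS'.1,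
    fun p q hpq => hS'.2 _ _ (hpq.map_inv hgf)⟩, hf.quasiMeasurePreserving.preimage_ae_eq hSe'⟩⟩

theorem BiSat.preimage_iter (hf : MeasurePreserving f μ μ) (hgf : ∀ p, g (f p) = p) {P : Set M}
    (h : BiSat μ f g P) (n : ℕ) : BiSat μ f g (f^[n] ⁻¹' P) := by
  induction n with
  | zero => exact h
  | succ n ih =>
    rw [Function.iterate_succ, Set.preimage_comp]
    exact ih.preimage hf hgf

end

/-- the hypotheses -/
structure Hyp : Prop where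
  sat : Sat
  hom : Hom
  lnd : Lnd
  blk : Blk
  tvi : Tvi
  slc : Slc
  loc : Loc
  cnt : Cnt
  sml : Sml
  cou : Cou

variable {d : ℕ} {N : Type} [MetricSpace N] [CompactSpace N] [MeasurableSpace N] [BorelSpace N]

theorem ergodic (H : Hyp) (ν : Measure N) [IsProbabilityMeasure ν]
    [ν.IsOpenPosMeasure] (A : HypAut d) (D : Fibres A N)
    (hg : ∀ x, MeasurePreserving (D.g x) ν ν) (hacc : EssAccessible A D.g (volume.prod ν))
    {Ω : Set (Tor d × N)} {Wu Ws : Tor d × N → Set N} (hW : PesinFibres A D.g ν Ω Wu Ws)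
    (hΩ : (volume.prod ν) Ωᶜ = 0) : Ergodic (skew A.M D.g) (volume.prod ν) := by
  refine ⟨D.two.s.F_mp hg (matAct_mp A.mul_inv), ⟨fun s hs hsF => ?_⟩⟩
  have h1 : (skew A.M D.g)^[1] ⁻¹' (s ∩ Ω) = s ∩ Ω := by
    ext p
    show skew A.M D.g p ∈ s ∩ Ω ↔ p ∈ s ∩ Ω
    have h2 : skew A.M D.g p ∈ s ↔ p ∈ s := by
      rw [← Set.mem_preimage, hsF]
    exact and_congr h2 (hW.inv p)
  rw [eventuallyConst_set']
  rcases main_k H.sat H.hom H.lnd H.blk H.tvi ν A D hg hacc hW one_pos (hs.inter hW.meas)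
    Set.inter_subset_right h1 with h3 | h3
  · left
    rw [ae_eq_empty]
    refine measure_mono_null (fun p hp => ?_) (measure_union_null h3 hΩ)
    by_cases h : p ∈ Ω
    · exact Or.inl ⟨hp, h⟩
    · exact Or.inr h
  · right
    rw [ae_eq_univ]
    refine measure_mono_null (fun p hp => ?_) (measure_union_null h3 hΩ)
    by_cases h : p ∈ Ω
    · exact Or.inl ⟨h, fun h' => hp h'.1⟩
    · exact Or.inr h

/-- small bi-saturated sets are null sets -/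
theorem small (H : Hyp) (ν : Measure N) [IsProbabilityMeasure ν]
    [ν.IsOpenPosMeasure] (A : HypAut d) (D : Fibres A N)
    (hg : ∀ x, MeasurePreserving (D.g x) ν ν) (hacc : EssAccessible A D.g (volume.prod ν))
    {Ω : Set (Tor d × N)} {Wu Ws : Tor d × N → Set N} (hW : PesinFibres A D.g ν Ω Wu Ws)
    (hΩ : (volume.prod ν) Ωᶜ = 0) : ∃ δ : ℝ≥0∞, 0 < δ ∧ ∀ Q : Set (Tor d × N),
      BiSat (volume.prod ν) (skew A.M D.g) (skewInv A.Mi D.g) Q → (volume.prod ν) Q ≤ δ →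
      (volume.prod ν) Q = 0 := by
  set μ : Measure (Tor d × N) := (volume : Measure (Tor d)).prod ν with hμ
  have hA : MeasurePreserving (matAct A.M : Tor d → Tor d) volume volume := matAct_mp A.mul_inv
  have hF : MeasurePreserving (skew A.M D.g) μ μ := D.two.s.F_mp hg hA
  have hgf : ∀ p, skewInv A.Mi D.g (skew A.M D.g p) = p := fun p => D.two.us_F p
  obtain ⟨Λ, hΛΩ, hΛm, hΛε, r, hr, hΛ⟩ := hW.block 2⁻¹ (by simp)
  obtain ⟨K, hK⟩ := H.sml N r hr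
  refine ⟨(2 * ((K : ℝ≥0∞) + 1))⁻¹, ?_, ?_⟩
  · rw [ENNReal.inv_pos]
    exact ENNReal.mul_ne_top (by simp) (by simp)
  intro Q hQ hQδ
  by_contra hQ0
  have herg := ergodic H ν A D hg hacc hW hΩ
  set U : Set (Tor d × N) := ⋃ n : ℕ, (skew A.M D.g)^[n] ⁻¹' Q with hU
  have hUm : MeasurableSet U := MeasurableSet.iUnion fun n => (hF.iterate n).measurable hQ.1
  have hUsub : skew A.M D.g ⁻¹' U ⊆ U := by
    intro p hp
    obtain ⟨n, hn⟩ := Set.mem_iUnion.1 hp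
    exact Set.mem_iUnion.2 ⟨n + 1, by
      show (skew A.M D.g)^[n + 1] p ∈ Q
      rw [Function.iterate_succ_apply]
      exact hn⟩
  have hUc : μ Uᶜ = 0 := by
    have hUi : skew A.M D.g ⁻¹' U =ᵐ[μ] U := by
      refine ae_eq_of_subset_of_measure_ge hUsub ?_ (hF.measurable hUm).nullMeasurableSet
        (measure_ne_top _ _)
      rw [hF.measure_preimage hUm.nullMeasurableSet]
    rcases herg.quasiErgodic.ae_empty_or_univ₀ hUm.nullMeasurableSet hUi with h | h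
    · exfalso
      apply hQ0
      refine measure_mono_null (fun p hp => ?_) (ae_eq_empty.1 h)
      exact Set.mem_iUnion.2 ⟨0, hp⟩
    · exact ae_eq_univ.1 h
  have hQn : ∀ n : ℕ, BiSat μ (skew A.M D.g) (skewInv A.Mi D.g) ((skew A.M D.g)^[n] ⁻¹' Q) :=
    fun n => hQ.preimage_iter hF hgf n
  have a1 : ∀ᵐ x : Tor d, ∀ n : ℕ, ∀ᵐ q ∂(ν.prod ν), (x, q.1) ∈ Λ → (x, q.2) ∈ Λ →
      dist q.1 q.2 < r → ((x, q.1) ∈ (skew A.M D.g)^[n] ⁻¹' Q ↔
        (x, q.2) ∈ (skew A.M D.g)^[n] ⁻¹' Q) :=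
    ae_all_iff.2 fun n => H.loc d N ν A D Ω Wu Ws hW Λ r hΛΩ hΛ _ (hQn n)
  have a2 : ∀ᵐ x : Tor d, ∀ n : ℕ, ν (Prod.mk x ⁻¹' ((skew A.M D.g)^[n] ⁻¹' Q)) = μ Q := by
    refine ae_all_iff.2 fun n => ?_
    have h5 := H.tvi _ _ _ _ D.two ν volume hg _ (hQn n)
    have h6 := H.slc _ _ _ _ D.two ν volume hg _ (hQn n).1 h5.1 h5.2
    filter_upwards [h6] with x hx
    rw [hx]
    exact (hF.iterate n).measure_preimage hQ.1.nullMeasurableSet
  have a3 : ∀ᵐ x : Tor d, ν (Prod.mk x ⁻¹' Uᶜ) = 0 := by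
    have := (Measure.measure_prod_null hUm.compl).1 hUc
    exact this
  have a4 : ∀ᵐ x : Tor d, ν (Prod.mk x ⁻¹' Λ) ≤ K * (2 * ((K : ℝ≥0∞) + 1))⁻¹ := by
    filter_upwards [a1, a2, a3] with x hx1 hx2 hx3
    refine hK ν (Prod.mk x ⁻¹' Λ) (fun n => Prod.mk x ⁻¹' ((skew A.M D.g)^[n] ⁻¹' Q)) _
      hx1 (fun n => ?_) ?_
    · rw [hx2 n]
      exact hQδ
    · have : (⋃ i, Prod.mk x ⁻¹' ((skew A.M D.g)^[i] ⁻¹' Q))ᶜ = Prod.mk x ⁻¹' Uᶜ := by
        rw [hU, Set.preimage_compl, Set.preimage_iUnion]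
      rw [this]
      exact hx3
  have a5 : μ Λ ≤ K * (2 * ((K : ℝ≥0∞) + 1))⁻¹ := by
    rw [hμ, Measure.prod_apply hΛm]
    calc ∫⁻ x, ν (Prod.mk x ⁻¹' Λ) ≤ ∫⁻ _ : Tor d, K * (2 * ((K : ℝ≥0∞) + 1))⁻¹ :=
          lintegral_mono_ae a4
      _ = _ := by simp
  have a6 : (K : ℝ≥0∞) * (2 * ((K : ℝ≥0∞) + 1))⁻¹ ≤ 2⁻¹ := by
    rw [ENNReal.mul_inv (by simp) (by simp), mul_comm, mul_assoc]
    calc (2 : ℝ≥0∞)⁻¹ * (((K : ℝ≥0∞) + 1)⁻¹ * K) ≤ 2⁻¹ * 1 := by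
          gcongr
          rw [mul_comm, ← div_eq_mul_inv]
          exact ENNReal.div_le_of_le_mul (by rw [one_mul]; exact le_self_add)
      _ = 2⁻¹ := mul_one _
  have a7 : (1 : ℝ≥0∞) < 1 := by
    calc (1 : ℝ≥0∞) = μ Set.univ := measure_univ.symm
      _ ≤ μ Λ + μ (Ω \ Λ) + μ Ωᶜ := by
          refine (measure_mono ?_).trans ((measure_union_le _ _).trans
            (add_le_add (measure_union_le _ _) le_rfl))
          intro p _
          by_cases h : p ∈ Ω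
          · by_cases h' : p ∈ Λ
            · exact Or.inl (Or.inl h')
            · exact Or.inl (Or.inr ⟨h, h'⟩)
          · exact Or.inr h
      _ = μ Λ + μ (Ω \ Λ) := by rw [hΩ, add_zero]
      _ < 2⁻¹ + 2⁻¹ := ENNReal.add_lt_add_of_le_of_lt (measure_ne_top _ _) (a5.trans a6) hΛε
      _ = 1 := ENNReal.inv_two_add_inv_two
  exact lt_irrefl _ a7

theorem triv (H : Hyp) (ν : Measure N) [IsProbabilityMeasure ν]
    [ν.IsOpenPosMeasure] (A : HypAut d) (D : Fibres A N)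
    (hg : ∀ x, MeasurePreserving (D.g x) ν ν) (hacc : EssAccessible A D.g (volume.prod ν))
    {Ω : Set (Tor d × N)} {Wu Ws : Tor d × N → Set N} (hW : PesinFibres A D.g ν Ω Wu Ws)
    (hΩ : (volume.prod ν) Ωᶜ = 0) (P : Set (Tor d × N))
    (hP : BiSat (volume.prod ν) (skew A.M D.g) (skewInv A.Mi D.g) P) :
    (volume.prod ν) P = 0 ∨ (volume.prod ν) Pᶜ = 0 := by
  set μ : Measure (Tor d × N) := (volume : Measure (Tor d)).prod ν with hμ
  have hA : MeasurePreserving (matAct A.M : Tor d → Tor d) volume volume := matAct_mp A.mul_inv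
  have hF : MeasurePreserving (skew A.M D.g) μ μ := D.two.s.F_mp hg hA
  have hgf : ∀ p, skewInv A.Mi D.g (skew A.M D.g p) = p := fun p => D.two.us_F p
  obtain ⟨δ, hδ, hsmall⟩ := small H ν A D hg hacc hW hΩ
  obtain ⟨Λ, hΛΩ, hΛm, hΛε, r, hr, hΛ⟩ := hW.block δ hδ
  obtain ⟨K, hK⟩ := H.cnt N r hr
  have hPn : ∀ n : ℕ, BiSat μ (skew A.M D.g) (skewInv A.Mi D.g) ((skew A.M D.g)^[n] ⁻¹' P) :=
    fun n => hP.preimage_iter hF hgf n
  have a1 : ∀ᵐ x : Tor d, ∀ n : ℕ, ∀ᵐ q ∂(ν.prod ν), (x, q.1) ∈ Λ → (x, q.2) ∈ Λ →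
      dist q.1 q.2 < r → ((x, q.1) ∈ (skew A.M D.g)^[n] ⁻¹' P ↔
        (x, q.2) ∈ (skew A.M D.g)^[n] ⁻¹' P) :=
    ae_all_iff.2 fun n => H.loc d N ν A D Ω Wu Ws hW Λ r hΛΩ hΛ _ (hPn n)
  have a2 : ∀ᵐ x : Tor d, ∀ i j : ℕ, ν (Prod.mk x ⁻¹' (symmDiff ((skew A.M D.g)^[i] ⁻¹' P)
      ((skew A.M D.g)^[j] ⁻¹' P))) = μ (symmDiff ((skew A.M D.g)^[i] ⁻¹' P)
      ((skew A.M D.g)^[j] ⁻¹' P)) := by
    refine ae_all_iff.2 fun i => ae_all_iff.2 fun j => ?_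
    have h4 := (hPn i).sdiff (hPn j)
    have h5 := H.tvi _ _ _ _ D.two ν volume hg _ h4
    exact H.slc _ _ _ _ D.two ν volume hg _ h4.1 h5.1 h5.2
  have a3 : ∀ᵐ x : Tor d, ν (Prod.mk x ⁻¹' Ωᶜ) = 0 :=
    (Measure.measure_prod_null hW.meas.compl).1 hΩ
  have a4 : ∃ᶠ x in ae (volume : Measure (Tor d)), ν (Prod.mk x ⁻¹' (Ω \ Λ)) < δ := by
    intro h
    have h5 : ∀ᵐ x : Tor d, δ ≤ ν (Prod.mk x ⁻¹' (Ω \ Λ)) := h.mono fun x hx => not_lt.1 hx
    have h6 : δ ≤ μ (Ω \ Λ) := by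
      rw [hμ, Measure.prod_apply (hW.meas.diff hΛm)]
      calc δ = ∫⁻ _ : Tor d, δ := by simp
        _ ≤ _ := lintegral_mono_ae h5
    exact absurd hΛε (not_lt.2 h6)
  obtain ⟨x, hx4, hx1, hx2, hx3⟩ := (a4.and_eventually (a1.and (a2.and a3))).exists
  obtain ⟨i, j, hij, -, h0⟩ := hK ν (Prod.mk x ⁻¹' Λ)
    (fun n => Prod.mk x ⁻¹' ((skew A.M D.g)^[n] ⁻¹' P)) hx1
  have b1 : μ (symmDiff ((skew A.M D.g)^[i] ⁻¹' P) ((skew A.M D.g)^[j] ⁻¹' P)) = 0 := by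
    refine hsmall _ ((hPn i).sdiff (hPn j)) ?_
    rw [← hx2 i j]
    have h5 : ν (Prod.mk x ⁻¹' (symmDiff ((skew A.M D.g)^[i] ⁻¹' P)
        ((skew A.M D.g)^[j] ⁻¹' P))) ≤
        ν (symmDiff (Prod.mk x ⁻¹' ((skew A.M D.g)^[i] ⁻¹' P))
          (Prod.mk x ⁻¹' ((skew A.M D.g)^[j] ⁻¹' P)) ∩ Prod.mk x ⁻¹' Λ) +
        ν (Prod.mk x ⁻¹' (Ω \ Λ)) + ν (Prod.mk x ⁻¹' Ωᶜ) := by
      refine (measure_mono ?_).trans ((measure_union_le _ _).trans
        (add_le_add (measure_union_le _ _) le_rfl))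
      intro z hz
      by_cases h : (x, z) ∈ Ω
      · by_cases h' : (x, z) ∈ Λ
        · exact Or.inl (Or.inl ⟨hz, h'⟩)
        · exact Or.inl (Or.inr ⟨h, h'⟩)
      · exact Or.inr h
    rw [h0, hx3, zero_add, add_zero] at h5
    exact h5.trans hx4.le
  obtain ⟨k, rfl⟩ := Nat.exists_eq_add_of_lt hij
  have b2 : (skew A.M D.g)^[k + 1] ⁻¹' P =ᵐ[μ] P := by
    have h5 : (skew A.M D.g)^[i] ⁻¹' (symmDiff P ((skew A.M D.g)^[k + 1] ⁻¹' P)) =
        symmDiff ((skew A.M D.g)^[i] ⁻¹' P) ((skew A.M D.g)^[i + k + 1] ⁻¹' P) := by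
      have h6 : (skew A.M D.g)^[i + k + 1] = (skew A.M D.g)^[k + 1] ∘ (skew A.M D.g)^[i] := by
        rw [← Function.iterate_add]
        congr 1
        omega
      rw [h6, Set.preimage_comp]
      rfl
    rw [← h5, (hF.iterate i).measure_preimage
      (hP.sdiff (hPn (k + 1))).1.nullMeasurableSet] at b1
    exact (measure_symmDiff_eq_zero_iff.1 b1).symm
  obtain ⟨t, htm, hte, hti⟩ := (hF.iterate (k + 1)).quasiMeasurePreserving.exists_preimage_eq_of_preimage_ae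
    hP.1.nullMeasurableSet b2
  have b3 : (skew A.M D.g)^[k + 1] ⁻¹' (t ∩ Ω) = t ∩ Ω := by
    rw [Set.preimage_inter, hti]
    congr 1
    ext p
    exact iter_mem hW.inv (k + 1) p
  rcases main_k H.sat H.hom H.lnd H.blk H.tvi ν A D hg hacc hW (Nat.succ_pos k)
    (htm.inter hW.meas) Set.inter_subset_right b3 with h3 | h3
  · left
    rw [← measure_congr hte]
    refine measure_mono_null (fun p hp => ?_) (measure_union_null h3 hΩ)
    by_cases h : p ∈ Ω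
    · exact Or.inl ⟨hp, h⟩
    · exact Or.inr h
  · right
    rw [← measure_congr hte.compl]
    refine measure_mono_null (fun p hp => ?_) (measure_union_null h3 hΩ)
    by_cases h : p ∈ Ω
    · exact Or.inl ⟨h, fun h' => hp h'.1⟩
    · exact Or.inr h

/-- **Main theorem.** -/
theorem main_all (H : Hyp) (ν : Measure N) [IsProbabilityMeasure ν]
    [ν.IsOpenPosMeasure] (A : HypAut d) (D : Fibres A N)
    (hg : ∀ x, MeasurePreserving (D.g x) ν ν)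
    {Ω : Set (Tor d × N)} {Wu Ws : Tor d × N → Set N} (hW : PesinFibres A D.g ν Ω Wu Ws)
    (hacc : EssAccessible A D.g (volume.prod ν)) :
    (∀ k > 0, ∀ S ⊆ Ω, MeasurableSet S → (skew A.M D.g)^[k] ⁻¹' S = S →
      (volume.prod ν) S = 0 ∨ (volume.prod ν) (Ω \ S) = 0) ∧
    ((volume.prod ν) Ωᶜ = 0 →
      Ergodic (skew A.M D.g) (volume.prod ν) ∧ Mix (skew A.M D.g) (volume.prod ν)) := by
  refine ⟨fun k hk S hS hSm hSk => main_k H.sat H.hom H.lnd H.blk H.tvi ν A D hg hacc hW hk hSm hS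
    hSk, fun hΩ => ⟨ergodic H ν A D hg hacc hW hΩ, ?_⟩⟩
  have hF : MeasurePreserving D.two.Fh (volume.prod ν) (volume.prod ν) :=
    D.two.s.F_mp hg (matAct_mp A.mul_inv)
  exact H.cou _ (volume.prod ν) D.two.Fh hF fun P hP => triv H ν A D hg hacc hW hΩ P hP

end SF

end Pool.Agent.SKP
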