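import Pool.Agent.Work.MP_adbfe6_an.SF.Defs
import Pool.Agent.Work.MP_adbfe6_an.SK.Lvl

/-!
# Surface fibres: statements

Every docstring is a complete proof. Prove `theorem i_X : X` (namespace `Pool.Agent.SKP.SF`) in
`Work/MP_adbfe6_an/SF/I_X.lean`, which imports this file.
-/

set_option autoImplicit false

open Filter Topology MeasureTheory
open scoped ENNReal NNReal

namespace Pool.Agent.SKP

namespace SF

/-- **Avg** (MEDIUM, von Neumann). Averages of a continuous function along the orbits converge along a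
subsequence almost everywhere, and the limit is as near to the indicator of an invariant set as the
function.
Proof: `H = Lp ℝ 2 μ`, `U = Lp.compMeasurePreservingₗᵢ ℝ f hf` (an isometry), `h' = toLp h`,
`w = toLp (indicator of S)`, `U w = w`. `ContinuousLinearMap.tendsto_birkhoffAverage_orthogonalProjection`
(`‖U‖ ≤ 1`): `birkhoffAverage ℝ U id n h'` converges in `H` to the orthogonal projection `P h'` to the
fixed vectors (`LinearMap.eqLocus U 1`); `P w = w`, so `‖P h' - w‖ = ‖P (h' - w)‖ ≤ ‖h' - w‖`.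
`birkhoffAverage ℝ U id n h'` is the class of the function `birkhoffAverage ℝ f h n` (induction;
`U^[k] h'` is the class of `h ∘ f^[k]`). Convergence in `L²` gives convergence in measure
(`tendstoInMeasure_of_tendsto_Lp`), so convergence a.e. along a subsequence
(`TendstoInMeasure.exists_seq_tendsto_ae`). -/
def Avg : Prop :=
  ∀ (M : Type) [MetricSpace M] [CompactSpace M] [MeasurableSpace M] [BorelSpace M]
    (μ : Measure M) [IsProbabilityMeasure μ] (f : M → M), MeasurePreserving f μ μ →
    ∀ S : Set M, MeasurableSet S → f ⁻¹' S =ᵐ[μ] S → ∀ h : C(M, ℝ),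
    ∃ (G : M → ℝ) (φ : ℕ → ℕ), Measurable G ∧ StrictMono φ ∧
      (∀ᵐ p ∂μ, Tendsto (fun i => birkhoffAverage ℝ f (⇑h) (φ i) p) atTop (𝓝 (G p))) ∧
      eLpNorm (fun p => G p - S.indicator (fun _ => (1 : ℝ)) p) 2 μ ≤
        eLpNorm (fun p => h p - S.indicator (fun _ => (1 : ℝ)) p) 2 μ

/-- **Lsp** (EASY-MEDIUM). The upper limit of averages of a continuous function does not distinguish
forward asymptotic points.
Proof: `h` is uniformly continuous (`M` is compact), so `h (f^[n] p) - h (f^[n] q) → 0`, so the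
averages of these differences converge to `0` (Cesàro: `Filter.Tendsto.cesaro`; `birkhoffAverage ℝ f h n
p = (n : ℝ)⁻¹ • ∑ k < n, h (f^[k] p)`), also along `φ`. Both sequences are bounded by `‖h‖`, and the
upper limits of two bounded real sequences whose difference converges to `0` agree
(for example by `limsup_congr`-like estimates: `limsup a ≤ limsup b + ε` for every `ε > 0`). -/
def Lsp : Prop :=
  ∀ (M : Type) [MetricSpace M] [CompactSpace M] (f : M → M) (h : C(M, ℝ)) (φ : ℕ → ℕ),
    StrictMono φ → ∀ p q : M,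
    Tendsto (fun n : ℕ => dist (f^[n] p) (f^[n] q)) atTop (𝓝 0) →
    limsup (fun i => birkhoffAverage ℝ f (⇑h) (φ i) p) atTop =
      limsup (fun i => birkhoffAverage ℝ f (⇑h) (φ i) q) atTop

/-- **Sat** (MEDIUM, uses `Avg` and `Lsp`). An invariant set has a version which is exactly saturated by
the classes of forward asymptotic points.
Proof: for `j : ℕ` let `K j` be continuous with `eLpNorm (K j - 1_S) 2 μ ≤ 1/(j+1)` (density of the
continuous functions: `MemLp.exists_boundedContinuous_eLpNorm_sub_le` or similar); take `G j`, `φ j`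
from `Avg` and `L j p := limsup_i (birkhoffAverage ℝ f (K j) (φ j i) p)`: measurable
(`Measurable.limsup`; the averages are continuous), `L j = G j` a.e. (`Tendsto.limsup_eq`), and `L j`
takes the same value at forward asymptotic points (`Lsp`). Since `eLpNorm (L j - 1_S) 2 μ ≤ 1/(j+1)`, a
subsequence `L (ψ i)` converges a.e. to `1_S`. Let `S' := {p | 1/2 < limsup_i (L (ψ i) p)}` with the
limsup taken in `EReal` or in `ℝ` (equal values of all `L j` at `p` and `q` give equal limsups in
either case; measurability: `Measurable.limsup` in `ℝ`, or coerce to `EReal`). A.e. the limsup is the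
indicator of `S`, so `S' = S` a.e. -/
def Sat : Prop :=
  ∀ (M : Type) [MetricSpace M] [CompactSpace M] [MeasurableSpace M] [BorelSpace M]
    (μ : Measure M) [IsProbabilityMeasure μ] (f : M → M), MeasurePreserving f μ μ → Continuous f →
    ∀ S : Set M, MeasurableSet S → f ⁻¹' S =ᵐ[μ] S →
    ∃ S' : Set M, MeasurableSet S' ∧ S' =ᵐ[μ] S ∧
      ∀ p q, Tendsto (fun n : ℕ => dist (f^[n] p) (f^[n] q)) atTop (𝓝 0) → (p ∈ S' ↔ q ∈ S')

/-- **Hom** (EASY). The holonomies are homeomorphisms.
Proof: induction over `l`: the fibre part of a move is the homeomorphism `D.s.Sh v x`, `D.u.Sh w x` or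
`D.s.g x`. -/
def Hom : Prop :=
  ∀ (B Ws Wu N : Type) [NormedAddCommGroup B] [CompactSpace B] [NormedAddCommGroup Ws]
    [NormedAddCommGroup Wu] [MetricSpace N] [CompactSpace N] (D : Two B Ws Wu N)
    (l : List (Mv Ws Wu)) (x : B), ∃ h : N ≃ₜ N, ∀ z, h z = D.hol l x z

/-- **Lnd** (EASY). The part of `X` outside of its support is a null set.
Proof: `N` is second countable; with a countable basis `𝓑`, the set is contained in the union of the
sets `X ∩ U`, `U ∈ 𝓑` with `ν (X ∩ U) = 0` (given `V` shrink it to `U ∈ 𝓑`, `z ∈ U ⊆ V`). -/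
def Lnd : Prop :=
  ∀ (N : Type) [MetricSpace N] [CompactSpace N] [MeasurableSpace N] [BorelSpace N]
    (ν : Measure N) (X : Set N),
    ν {z | z ∈ X ∧ ∃ V, IsOpen V ∧ z ∈ V ∧ ν (X ∩ V) = 0} = 0

/-- **Ful** (MEDIUM, uses `Hom` and `Lnd`; model: `Two.ergodic_of_fibre`, `Two.const_of_x0` in
`SK/Red.lean`). The slices of an invariant set of positive measure have full support.
Proof: `E := S.indicator 1`; `E ∘ F = E` a.e. gives `hEs`, `hEu` by `D.E_s`, `D.E_u`. Take a mollifier
`ρ` (`Two.exists_moll` for `m = Measure.addHaar`), `e x z := D.bun.e m ρ E x z` and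
`X x := {z | 1/2 < e x z}` (measurable, `D.bun.e_meas`). `D.dens_eq`: for a.e. `(x, z)`,
`z ∈ X x ↔ (x, z) ∈ S`; so `(lam.prod ν) S = ∫ ν (X x)`, and for a.e. `x`, `X x = S_x` a.e.
`D.dens_run_leaf`: for all lists `l` of leaf moves and all `x`: `(D.hol l x)⁻¹ (X (D.brun l x)) = X x`
a.e.; as `D.hol l x` preserves `ν` (`D.hol_mp`) and any two points of `B` are joined by `[s v, u w]`
(`D.surj`), `ν (X x)` does not depend on `x`, so `ν (X x) = (lam.prod ν) S > 0` for all `x`.
Fix `x`, `O := {z | ∃ V open, z ∈ V, ν (X x ∩ V) = 0}` is open. For a loop `l` of leaf moves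
(`D.brun l x = x`) let `h` be the homeomorphism `D.hol l x` (`Hom`). `z ∈ O → h z ∈ O`: if `z ∈ V`,
`ν (X x ∩ V) = 0`, then `h '' V` is open and `ν (X x ∩ h '' V) = ν (h⁻¹ (X x) ∩ V) = ν (X x ∩ V) = 0`.
`h z ∈ O → z ∈ O`: `V ∋ h z`, `ν (X x ∩ h⁻¹ V) = ν (h⁻¹ (X x) ∩ h⁻¹ V) = ν (X x ∩ V) = 0`. By
`D.strict_trivial`: `ν O = 0` or `ν Oᶜ = 0`. In the second case `ν (X x) ≤ ν (X x ∩ O) + ν Oᶜ = 0` by
`Lnd`: contradiction. So `ν O = 0`, `O` is open, so `O = ∅` (`ν` is positive on nonempty open sets).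
So for every `x` and every nonempty open `U`, `ν (X x ∩ U) > 0`. -/
def Ful : Prop :=
  ∀ (B Ws Wu N : Type) [NormedAddCommGroup B] [CompactSpace B] [NormedAddCommGroup Ws]
    [NormedAddCommGroup Wu] [MetricSpace N] [CompactSpace N] (D : Two B Ws Wu N)
    [MeasurableSpace B] [BorelSpace B] [MeasurableSpace N] [BorelSpace N]
    [NormedSpace ℝ Ws] [NormedSpace ℝ Wu] [FiniteDimensional ℝ Ws] [FiniteDimensional ℝ Wu]
    [MeasurableSpace Ws] [BorelSpace Ws] [MeasurableSpace Wu] [BorelSpace Wu]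
    (ν : Measure N) [IsProbabilityMeasure ν] [ν.IsOpenPosMeasure] (lam : Measure B)
    [IsProbabilityMeasure lam] [lam.IsAddLeftInvariant],
    (∀ x, MeasurePreserving (D.s.g x) ν ν) → MeasurePreserving D.s.A lam lam →
    D.EssAcc lam ν → ∀ S : Set (B × N), MeasurableSet S → D.s.F ⁻¹' S =ᵐ[lam.prod ν] S →
    0 < (lam.prod ν) S → ∀ᵐ x ∂lam, ∀ U : Set N, IsOpen U → U.Nonempty →
      0 < ν (Prod.mk x ⁻¹' S ∩ U)

/-- **Blk** (EASY-MEDIUM, uses `Lnd`). Uniform lower bounds for the measure of balls in the slices of a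
set.
Proof: `φ (x, y) := ν {y' | (x, y') ∈ T ∧ dist y' y < r}` is measurable (`measurable_measure_prodMk_left`
for the measurable subset `{((x, y), y') | (x, y') ∈ T ∧ dist y' y < r}` of `(B × N) × N`). For every
`x`, for a.e. `y` with `(x, y) ∈ T` it is positive (`Lnd` for `X = T_x`, `V` = ball). So
`T = ⋃_n {p ∈ T | 1/(n+1) ≤ φ p}` up to a null set, and one of these sets has positive measure. -/
def Blk : Prop :=
  ∀ (B N : Type) [MeasurableSpace B] [MetricSpace N] [CompactSpace N] [MeasurableSpace N]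
    [BorelSpace N] (lam : Measure B) [IsProbabilityMeasure lam] (ν : Measure N)
    [IsProbabilityMeasure ν] (T : Set (B × N)), MeasurableSet T → 0 < (lam.prod ν) T →
    ∀ r : ℝ, 0 < r → ∃ T' ⊆ T, MeasurableSet T' ∧ 0 < (lam.prod ν) T' ∧ ∃ c : ℝ≥0∞, 0 < c ∧
      ∀ x y, (x, y) ∈ T' → c ≤ ν {y' | (x, y') ∈ T ∧ dist y' y < r}

end SF

end Pool.Agent.SKP
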